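import Pool.Agent.H47.SS.Sd
import Pool.Agent.H47.SR.E1

/-!
# L2: ultralimits
-/

set_option autoImplicit false

open Filter Topology

namespace Pool.Agent.H47.SS

open Pool.Agent.H47.SR

variable {X : Type*} [NormedAddCommGroup X] [NormedSpace ℝ X]

/-- ROW L2a. Copy of `Pool.Agent.H47.SR.exists_funs` (file Pool/Agent/H47/SR/E1.lean). -/
theorem exists_funs0 {ι : Type*} (U : Ultrafilter ι) (C : ℝ) (p : ℕ → ℕ) (S : ι → Submodule ℝ X)
    (N : ι → X → ℝ) (D : ι → X → X → ℝ) (B : ι → X → X → X → ℝ)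
    (hE : ∀ i, Est0 C p (S i) (N i) (D i) (B i))
    (hS : ∀ x : X, ∀ᶠ i in (U : Filter ι), x ∈ S i) :
    ∃ (N' : X → ℝ) (D' : X → X → ℝ) (B' : X → X → X → ℝ),
      (∀ x, Tendsto (fun i => N i x) U (𝓝 (N' x))) ∧
      (∀ x, x ≠ 0 → ∀ h, Tendsto (fun i => D i x h) U (𝓝 (D' x h))) ∧
      (∀ x, x ≠ 0 → ∀ h k, Tendsto (fun i => B i x h k) U (𝓝 (B' x h k))) := by
  have hN : ∀ x : X, ∃ L : ℝ, Tendsto (fun i => N i x) U (𝓝 L) := by
    intro x
    apply exists_lim U _ (C * ‖x‖)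
    filter_upwards [hS x] with i hi
    have h2 := (hE i).upp x hi
    have h0 : N i 0 = 0 := by
      have h := (hE i).hom 0 0 (S i).zero_mem
      rw [smul_zero, abs_zero, zero_mul] at h
      exact h
    have hneg : N i (-x) = N i x := by
      have h := (hE i).hom (-1) x hi
      rw [neg_one_smul, abs_neg, abs_one, one_mul] at h
      exact h
    have h4 : 0 ≤ N i x := by
      have h := (hE i).tri x hi (-x) ((S i).neg_mem hi)
      rw [add_neg_cancel, h0, hneg] at h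
      linarith
    rw [abs_of_nonneg h4]
    exact h2
  have hD : ∀ x h : X, ∃ L : ℝ, x ≠ 0 → Tendsto (fun i => D i x h) U (𝓝 L) := by
    intro x h
    by_cases hx : x = 0
    · exact ⟨0, fun h0 => absurd hx h0⟩
    · obtain ⟨L, hL⟩ := exists_lim U (fun i => D i x h) (C * ‖h‖) (by
        filter_upwards [hS x, hS h] with i hi hj
        exact (hE i).Dbd x hi hx h hj)
      exact ⟨L, fun _ => hL⟩
  have hB : ∀ x h k : X, ∃ L : ℝ, x ≠ 0 → Tendsto (fun i => B i x h k) U (𝓝 L) := by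
    intro x h k
    by_cases hx : x = 0
    · exact ⟨0, fun h0 => absurd hx h0⟩
    · obtain ⟨L, hL⟩ := exists_lim U (fun i => B i x h k) (C * ‖h‖ * ‖k‖ / ‖x‖) (by
        filter_upwards [hS x, hS h, hS k] with i hi hj hk
        rw [le_div_iff₀ (norm_pos_iff.mpr hx)]
        exact (hE i).Bbd x hi hx h hj k hk)
      exact ⟨L, fun _ => hL⟩
  choose N' hN' using hN
  choose D' hD' using hD
  choose B' hB' using hB
  exact ⟨N', D', B', hN', fun x hx h => hD' x h hx, fun x hx h k => hB' x h k hx⟩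

/-- ROW L2b. One scale of uniform convexity passes to the limit: copy of `Pool.Agent.H47.SR.ucv_lim` (file
Pool/Agent/H47/SR/E3.lean) with `e` for `1 / (j + 1)` and `d` for `1 / (p j + 1)`. (No bounds on `e`, `d` are needed:
`0 < t < 1` with `e < t * N' (x - y)` exists by continuity at `t = 1`.) -/
theorem ucv_lim0 {ι : Type*} (U : Ultrafilter ι) (C : ℝ) (p : ℕ → ℕ) (S : ι → Submodule ℝ X)
    (N : ι → X → ℝ) (D : ι → X → X → ℝ) (B : ι → X → X → X → ℝ)
    (hE : ∀ i, Est0 C p (S i) (N i) (D i) (B i))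
    (hS : ∀ x : X, ∀ᶠ i in (U : Filter ι), x ∈ S i) (e d : ℝ)
    (hu : ∀ i, ∀ x ∈ S i, ∀ y ∈ S i, N i x ≤ 1 → N i y ≤ 1 → e ≤ N i (x - y) →
      N i ((1 / 2 : ℝ) • (x + y)) ≤ 1 - d)
    (N' : X → ℝ) (hN : ∀ x, Tendsto (fun i => N i x) U (𝓝 (N' x)))
    (x y : X) (hx : N' x ≤ 1) (hy : N' y ≤ 1) (hxy : e < N' (x - y)) :
    N' ((1 / 2 : ℝ) • (x + y)) ≤ 1 - d := by
  have key : ∀ᶠ t in 𝓝[<] (1 : ℝ), t * N' ((1 / 2 : ℝ) • (x + y)) ≤ 1 - d := by
    have h1 : Tendsto (fun t : ℝ => t * N' (x - y)) (𝓝[<] 1) (𝓝 (N' (x - y))) := by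
      have h : Tendsto (fun t : ℝ => t * N' (x - y)) (𝓝 1) (𝓝 (1 * N' (x - y))) :=
        (continuous_id.mul continuous_const).tendsto 1
      rw [one_mul] at h
      exact h.mono_left nhdsWithin_le_nhds
    have h2 : ∀ᶠ t in 𝓝[<] (1 : ℝ), e < t * N' (x - y) :=
      h1.eventually (lt_mem_nhds hxy)
    have h3 : ∀ᶠ t in 𝓝[<] (1 : ℝ), 0 < t := nhdsWithin_le_nhds (lt_mem_nhds one_pos)
    filter_upwards [h2, h3, self_mem_nhdsWithin] with t ht1 ht0 htl
    have htl' : t < 1 := htl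
    have hb : ∀ u : X, N' u ≤ 1 → ∀ᶠ i in (U : Filter ι), t * N i u < 1 := by
      intro u hu
      have h4 : t * N' u < 1 := by nlinarith
      exact ((hN u).const_mul t).eventually (gt_mem_nhds h4)
    have hd : ∀ᶠ i in (U : Filter ι), e < t * N i (x - y) :=
      ((hN (x - y)).const_mul t).eventually (lt_mem_nhds ht1)
    refine le_of_tendsto ((hN ((1 / 2 : ℝ) • (x + y))).const_mul t) ?_
    filter_upwards [hb x hx, hb y hy, hd, hS x, hS y] with i ix iy id sx sy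
    have hom : ∀ u ∈ S i, N i (t • u) = t * N i u := by
      intro u hu
      rw [(hE i).hom t u hu, abs_of_pos ht0]
    have e1 : t • x - t • y = t • (x - y) := (smul_sub t x y).symm
    have e2 : (1 / 2 : ℝ) • (t • x + t • y) = t • ((1 / 2 : ℝ) • (x + y)) := by
      rw [← smul_add, smul_comm]
    have h5 := hu i (t • x) ((S i).smul_mem t sx) (t • y) ((S i).smul_mem t sy)
      (by rw [hom x sx]; exact ix.le) (by rw [hom y sy]; exact iy.le)
      (by rw [e1, hom _ ((S i).sub_mem sx sy)]; exact id.le)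
    rw [e2, hom _ ((S i).smul_mem _ ((S i).add_mem sx sy))] at h5
    exact h5
  have h6 : Tendsto (fun t : ℝ => t * N' ((1 / 2 : ℝ) • (x + y))) (𝓝[<] 1)
      (𝓝 (N' ((1 / 2 : ℝ) • (x + y)))) := by
    have h : Tendsto (fun t : ℝ => t * N' ((1 / 2 : ℝ) • (x + y))) (𝓝 1)
        (𝓝 (1 * N' ((1 / 2 : ℝ) • (x + y)))) :=
      (continuous_id.mul continuous_const).tendsto 1
    rw [one_mul] at h
    exact h.mono_left nhdsWithin_le_nhds
  exact le_of_tendsto h6 key

end Pool.Agent.H47.SS
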