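import Pool.Agent.H47.SS.Sd
import Pool.Agent.H47.SR.F3

/-!
# L5: a function with the estimates is twice differentiable
-/

set_option autoImplicit false

open Filter Topology

namespace Pool.Agent.H47.SS

open Pool.Agent.H47.SR

variable {X : Type*} [NormedAddCommGroup X] [NormedSpace ℝ X]

/-- ROW F1a. `D x` as a continuous linear map (`LinearMap.mkContinuous`, for `x = 0` take 0) and `B x` as a continuous bilinear map
(`LinearMap.mkContinuous₂`, constant `(p 0 + 1) / ‖x‖`). -/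
theorem exists_clm0 (C : ℝ) (p : ℕ → ℕ) (N : X → ℝ) (D : X → X → ℝ) (B : X → X → X → ℝ)
    (h : Est0 C p ⊤ N D B) :
    ∃ (D' : X → X →L[ℝ] ℝ) (B' : X → X →L[ℝ] X →L[ℝ] ℝ),
      (∀ x, x ≠ 0 → ∀ h, D' x h = D x h) ∧ (∀ x, x ≠ 0 → ∀ h k, B' x h k = B x h k) := by
  have H := h
  have h1 : ∀ x : X, ∃ D' : X →L[ℝ] ℝ, x ≠ 0 → ∀ h, D' h = D x h := by
    intro x
    by_cases hx : x = 0
    · exact ⟨0, fun h => absurd hx h⟩
    · let L : X →ₗ[ℝ] ℝ :=
        { toFun := D x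
          map_add' := fun a b => H.Dadd x trivial hx a trivial b trivial
          map_smul' := fun t a => H.Dsmul x trivial hx t a trivial }
      refine ⟨L.mkContinuous C ?_, fun _ h => rfl⟩
      intro a
      exact H.Dbd x trivial hx a trivial
  have h2 : ∀ x : X, ∃ B' : X →L[ℝ] X →L[ℝ] ℝ, x ≠ 0 → ∀ h k, B' h k = B x h k := by
    intro x
    by_cases hx : x = 0
    · exact ⟨0, fun h => absurd hx h⟩
    · let L : X →ₗ[ℝ] X →ₗ[ℝ] ℝ := LinearMap.mk₂ ℝ (B x)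
        (fun a b c => H.Badd₁ x trivial hx a trivial b trivial c trivial)
        (fun t a c => H.Bsmul₁ x trivial hx t a trivial c trivial)
        (fun a b c => H.Badd₂ x trivial hx a trivial b trivial c trivial)
        (fun t a c => H.Bsmul₂ x trivial hx t a trivial c trivial)
      refine ⟨L.mkContinuous₂ (C / ‖x‖) ?_, fun _ h k => rfl⟩
      intro a b
      have hx0 : 0 < ‖x‖ := norm_pos_iff.mpr hx
      have h3 := H.Bbd x trivial hx a trivial b trivial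
      change |B x a b| ≤ _
      rw [show C / ‖x‖ * ‖a‖ * ‖b‖ = (C * ‖a‖ * ‖b‖) / ‖x‖ by ring,
        le_div_iff₀ hx0]
      exact h3
  choose D' hD' using h1
  choose B' hB' using h2
  exact ⟨D', B', hD', hB'⟩

/-- ROW F1b. `0 ≤ N (x + h) - N x - D x h ≤ (D (x + h) - D x) h` (`sub` at `x` with `h` and at `x + h` with `-h`), and by
`tay` (`j = 0`) and `Bbd` the right side is `≤ (p 0 + 2) ‖h‖ ^ 2 / ‖x‖` for `‖h‖ ≤ ‖x‖ / (p 0 + 2)`. -/
theorem hasFDerivAt_N0 (C : ℝ) (p : ℕ → ℕ) (N : X → ℝ) (D : X → X → ℝ) (B : X → X → X → ℝ)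
    (h : Est0 C p ⊤ N D B) (D' : X → X →L[ℝ] ℝ) (hD : ∀ x, x ≠ 0 → ∀ h, D' x h = D x h)
    {x : X} (hx : x ≠ 0) : HasFDerivAt N (D' x) x := by
  have H := h
  have hx0 : 0 < ‖x‖ := norm_pos_iff.mpr hx
  have hp : (0 : ℝ) < (p 0 : ℝ) + 2 := by positivity
  rw [hasFDerivAt_iff_isLittleO_nhds_zero]
  have key : (fun k : X => N (x + k) - N x - D' x k) =O[𝓝 0] fun k : X => ‖k‖ ^ 2 := by
    apply Asymptotics.IsBigO.of_bound ((C + 1) / ‖x‖)
    have hr : 0 < ‖x‖ / ((p 0 : ℝ) + 2) := by positivity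
    filter_upwards [Metric.ball_mem_nhds (0 : X) hr] with k hk
    rw [mem_ball_zero_iff] at hk
    have hk' : ‖k‖ ≤ ‖x‖ / ((p 0 : ℝ) + 2) := hk.le
    have hxk : x + k ≠ 0 := by
      intro h0
      have h1 : k = -x := by rw [← sub_eq_zero, sub_neg_eq_add, add_comm]; exact h0
      rw [h1, norm_neg, lt_div_iff₀ hp] at hk
      have hp0 : (0 : ℝ) ≤ (p 0 : ℝ) := Nat.cast_nonneg _
      nlinarith
    have e1 := H.sub x trivial hx k trivial
    have e2 := H.sub (x + k) trivial hxk (-k) trivial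
    have e3 : D (x + k) (-k) = -D (x + k) k := by
      have := H.Dsmul (x + k) trivial hxk (-1) k trivial
      rw [neg_one_smul] at this
      rw [this]; ring
    rw [e3, add_neg_cancel_right] at e2
    have e4 := H.tay 0 x trivial hx k trivial k trivial hk'
    have e5 := H.Bbd x trivial hx k trivial k trivial
    have e6 : D (x + k) k - D x k ≤ |D (x + k) k - D x k - B x k k| + |B x k k| := by
      have a1 := le_abs_self (D (x + k) k - D x k - B x k k)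
      have a2 := le_abs_self (B x k k)
      linarith
    have e7 : (D (x + k) k - D x k) * ‖x‖ ≤ (C + 1) * ‖k‖ ^ 2 := by
      have a1 : (D (x + k) k - D x k) * ‖x‖ ≤
          (|D (x + k) k - D x k - B x k k| + |B x k k|) * ‖x‖ :=
        mul_le_mul_of_nonneg_right e6 hx0.le
      have a2 : ‖k‖ * ‖k‖ / (((0 : ℕ) : ℝ) + 1) = ‖k‖ ^ 2 := by
        rw [Nat.cast_zero, zero_add, div_one]; ring
      rw [a2] at e4
      nlinarith
    have e8 : D' x k = D x k := hD x hx k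
    rw [e8, Real.norm_of_nonneg (by linarith), Real.norm_of_nonneg (by positivity),
      show (C + 1) / ‖x‖ * ‖k‖ ^ 2 = ((C + 1) * ‖k‖ ^ 2) / ‖x‖ by ring,
      le_div_iff₀ hx0]
    have e9 : N (x + k) - N x - D x k ≤ D (x + k) k - D x k := by linarith
    exact (mul_le_mul_of_nonneg_right e9 hx0.le).trans e7
  exact key.trans_isLittleO (Asymptotics.isLittleO_norm_pow_id one_lt_two)


/-- ROW F2a. `tay`: for `ε > 0` take `j` with `1 / (j + 1) ≤ ε ‖x‖`; `‖D' (x + h) - D' x - B' x h‖ ≤ ε ‖h‖` for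
`‖h‖ ≤ ‖x‖ / (p j + 2)` (`ContinuousLinearMap.opNorm_le_bound`). -/
theorem hasFDerivAt_D0 (C : ℝ) (p : ℕ → ℕ) (N : X → ℝ) (D : X → X → ℝ) (B : X → X → X → ℝ)
    (h : Est0 C p ⊤ N D B) (D' : X → X →L[ℝ] ℝ) (B' : X → X →L[ℝ] X →L[ℝ] ℝ)
    (hD : ∀ x, x ≠ 0 → ∀ h, D' x h = D x h) (hB : ∀ x, x ≠ 0 → ∀ h k, B' x h k = B x h k)
    {x : X} (hx : x ≠ 0) : HasFDerivAt D' (B' x) x := by
  have hx0 : 0 < ‖x‖ := norm_pos_iff.2 hx
  rw [hasFDerivAt_iff_isLittleO_nhds_zero, Asymptotics.isLittleO_iff]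
  intro c hc
  obtain ⟨j, hj⟩ := exists_nat_one_div_lt (mul_pos hc hx0)
  have hr : 0 < ‖x‖ / ((p j : ℝ) + 2) := by positivity
  filter_upwards [Metric.closedBall_mem_nhds (0 : X) hr] with z hz
  rw [Metric.mem_closedBall, dist_zero_right] at hz
  have hne : x + z ≠ 0 := by
    intro h0
    have h1 : ‖z‖ = ‖x‖ := by
      rw [← norm_neg z, ← eq_neg_of_add_eq_zero_left h0]
    have h2 : ‖x‖ / ((p j : ℝ) + 2) < ‖x‖ := by
      rw [div_lt_iff₀ (by positivity)]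
      nlinarith [(Nat.cast_nonneg (p j) : (0 : ℝ) ≤ (p j : ℝ))]
    linarith
  refine ContinuousLinearMap.opNorm_le_bound _ (by positivity) fun k => ?_
  have h3 := h.tay j x Submodule.mem_top hx z Submodule.mem_top k Submodule.mem_top hz
  have h4 : (D' (x + z) - D' x - B' x z) k = D (x + z) k - D x k - B x z k := by
    rw [sub_apply, sub_apply, hD _ hne, hD _ hx, hB _ hx]
  rw [h4, Real.norm_eq_abs]
  have h5 : ‖z‖ * ‖k‖ / ((j : ℝ) + 1) ≤ c * ‖z‖ * ‖k‖ * ‖x‖ := by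
    have h6 : ‖z‖ * ‖k‖ / ((j : ℝ) + 1) = (1 / ((j : ℝ) + 1)) * (‖z‖ * ‖k‖) := by ring
    have h7 : c * ‖z‖ * ‖k‖ * ‖x‖ = c * ‖x‖ * (‖z‖ * ‖k‖) := by ring
    rw [h6, h7]
    exact mul_le_mul_of_nonneg_right hj.le (by positivity)
  exact le_of_mul_le_mul_right (h3.trans h5) hx0

/-- ROW F2b. `cnt` and `opNorm_le_bound` twice. -/
theorem norm_B_sub_le0 (C : ℝ) (p : ℕ → ℕ) (N : X → ℝ) (D : X → X → ℝ) (B : X → X → X → ℝ)
    (h : Est0 C p ⊤ N D B) (B' : X → X →L[ℝ] X →L[ℝ] ℝ)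
    (hB : ∀ x, x ≠ 0 → ∀ h k, B' x h k = B x h k) (j : ℕ) {x y : X} (hx : x ≠ 0)
    (hxy : ‖x - y‖ ≤ ‖x‖ / ((p j : ℝ) + 2)) : ‖B' x - B' y‖ * ‖x‖ ≤ 1 / ((j : ℝ) + 1) := by
  have hx0 : 0 < ‖x‖ := norm_pos_iff.2 hx
  have hy : y ≠ 0 := by
    intro h0
    rw [h0, sub_zero] at hxy
    have h2 : ‖x‖ / ((p j : ℝ) + 2) < ‖x‖ := by
      rw [div_lt_iff₀ (by positivity)]
      nlinarith [(Nat.cast_nonneg (p j) : (0 : ℝ) ≤ (p j : ℝ))]
    linarith
  have h1 : ‖B' x - B' y‖ ≤ 1 / ((j : ℝ) + 1) / ‖x‖ := by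
    refine ContinuousLinearMap.opNorm_le_bound _ (by positivity) fun z => ?_
    refine ContinuousLinearMap.opNorm_le_bound _ (by positivity) fun k => ?_
    have h3 := h.cnt j x Submodule.mem_top hx y Submodule.mem_top z Submodule.mem_top k
      Submodule.mem_top hxy
    have h4 : ((B' x - B' y) z) k = B x z k - B y z k := by
      rw [sub_apply, sub_apply, hB _ hx, hB _ hy]
    rw [h4, Real.norm_eq_abs]
    have h5 : ‖z‖ * ‖k‖ / ((j : ℝ) + 1) = 1 / ((j : ℝ) + 1) / ‖x‖ * ‖z‖ * ‖k‖ * ‖x‖ := by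
      field_simp
    rw [h5] at h3
    exact le_of_mul_le_mul_right h3 hx0
  calc ‖B' x - B' y‖ * ‖x‖ ≤ 1 / ((j : ℝ) + 1) / ‖x‖ * ‖x‖ :=
        mul_le_mul_of_nonneg_right h1 hx0.le
    _ = 1 / ((j : ℝ) + 1) := by field_simp


/-- ROW F3a. On the open set `{x ≠ 0}`: `fderiv ℝ N = D'`, so `fderiv ℝ (fderiv ℝ N) = B'` (`HasFDerivAt.fderiv`, `Filter.EventuallyEq.fderiv_eq`).
`ContDiffOn ℝ 2`: `contDiffOn_succ_iff_fderiv_of_isOpen` twice (`1 + 1 = 2`) and continuity of `B'` (`norm_B_sub_le0`). Uniform continuity on `{N = 1}`: there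
`1 / (p 0 + 1) ≤ ‖x‖`; `norm_B_sub_le0` with `j` large. -/
theorem unifC2_of_est0 (C : ℝ) (p : ℕ → ℕ) (N : X → ℝ) (D : X → X → ℝ) (B : X → X → X → ℝ)
    (h : Est0 C p ⊤ N D B) : UnifC2 N := by
  obtain ⟨D', B', hD, hB⟩ := exists_clm0 C p N D B h
  have hopen : IsOpen {x : X | x ≠ 0} := isOpen_ne
  have h1 : ∀ x : X, x ≠ 0 → HasFDerivAt N (D' x) x := fun x hx => hasFDerivAt_N0 C p N D B h D' hD hx
  have h2 : ∀ x : X, x ≠ 0 → HasFDerivAt (fderiv ℝ N) (B' x) x := by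
    intro x hx
    refine (hasFDerivAt_D0 C p N D B h D' B' hD hB hx).congr_of_eventuallyEq ?_
    filter_upwards [hopen.mem_nhds hx] with y hy
    exact (h1 y hy).fderiv
  have h3 : ∀ x : X, x ≠ 0 → fderiv ℝ (fderiv ℝ N) x = B' x := fun x hx => (h2 x hx).fderiv
  have hcont : ContinuousOn (fderiv ℝ (fderiv ℝ N)) {x : X | x ≠ 0} := by
    have hcB : ContinuousOn B' {x : X | x ≠ 0} := by
      intro x hx
      have hx' : 0 < ‖x‖ := norm_pos_iff.2 hx
      refine ContinuousAt.continuousWithinAt ?_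
      refine (Metric.continuousAt_iff (α := X) (β := X →L[ℝ] X →L[ℝ] ℝ)).2 ?_
      intro ε hε
      obtain ⟨j, hj⟩ := exists_nat_one_div_lt (mul_pos hε hx')
      have hp : (0 : ℝ) < (p j : ℝ) + 2 := by positivity
      refine ⟨‖x‖ / ((p j : ℝ) + 2), by positivity, fun {y} hy => ?_⟩
      have h4 := norm_B_sub_le0 C p N D B h B' hB j hx (y := y) (by
        rw [dist_comm, dist_eq_norm] at hy
        exact hy.le)
      have h5 : ‖B' x - B' y‖ * ‖x‖ < ε * ‖x‖ := lt_of_le_of_lt h4 hj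
      have h6 : ‖B' x - B' y‖ < ε := lt_of_mul_lt_mul_right h5 hx'.le
      rw [dist_comm]
      exact lt_of_eq_of_lt (@dist_eq_norm (X →L[ℝ] X →L[ℝ] ℝ) _ (B' x) (B' y)) h6
    exact hcB.congr fun x hx => h3 x hx
  refine ⟨?_, ?_⟩
  · have e : (2 : WithTop ℕ∞) = 1 + 1 := by norm_num
    rw [e, contDiffOn_succ_iff_fderiv_of_isOpen hopen]
    refine ⟨fun x hx => (h1 x hx).differentiableAt.differentiableWithinAt, fun h => by simp at h, ?_⟩
    have e' : (1 : WithTop ℕ∞) = 0 + 1 := by norm_num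
    rw [e', contDiffOn_succ_iff_fderiv_of_isOpen hopen]
    refine ⟨fun x hx => (h2 x hx).differentiableAt.differentiableWithinAt, fun h => by simp at h, ?_⟩
    rw [contDiffOn_zero]
    exact hcont
  · by_cases hX : ∃ x : X, x ≠ 0
    swap
    · have hX0 : ∀ x : X, x = 0 := fun x => by_contra fun hx => hX ⟨x, hx⟩
      refine (Metric.uniformContinuousOn_iff (α := X) (β := X →L[ℝ] X →L[ℝ] ℝ)).2 ?_
      intro ε hε
      refine ⟨1, one_pos, fun x _ y _ _ => ?_⟩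
      rw [hX0 x, hX0 y]
      exact lt_of_eq_of_lt (@dist_self (X →L[ℝ] X →L[ℝ] ℝ) _ _) hε
    have hp0 : 0 < C := by
      obtain ⟨x, hx⟩ := hX
      have hx0 : 0 < ‖x‖ := norm_pos_iff.2 hx
      have a0 : N 0 = 0 := by
        have := h.hom 0 (0 : X) Submodule.mem_top
        rwa [zero_smul, abs_zero, zero_mul] at this
      have a1 : N (-x) = N x := by
        have := h.hom (-1) x Submodule.mem_top
        rwa [neg_one_smul, abs_neg, abs_one, one_mul] at this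
      have a2 := h.tri x Submodule.mem_top (-x) Submodule.mem_top
      rw [add_neg_cancel, a0, a1] at a2
      have a3 := h.low x Submodule.mem_top
      by_contra hC
      have hC' : C ≤ 0 := not_lt.1 hC
      nlinarith
    have hlow : ∀ x : X, N x = 1 → 1 / C ≤ ‖x‖ := by
      intro x hx
      have h4 := h.upp x Submodule.mem_top
      rw [hx] at h4
      rw [div_le_iff₀ hp0]
      linarith
    refine (Metric.uniformContinuousOn_iff (α := X) (β := X →L[ℝ] X →L[ℝ] ℝ)).2 ?_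
    intro ε hε
    obtain ⟨j, hj⟩ := exists_nat_one_div_lt (div_pos hε hp0)
    have hp : (0 : ℝ) < (p j : ℝ) + 2 := by positivity
    refine ⟨1 / C / ((p j : ℝ) + 2), by positivity, ?_⟩
    intro x hx y hy hxy
    have hx1 := hlow x hx
    have hy1 := hlow y hy
    have hpos : 0 < 1 / C := by positivity
    have hx0 : x ≠ 0 := norm_pos_iff.1 (lt_of_lt_of_le hpos hx1)
    have hy0 : y ≠ 0 := norm_pos_iff.1 (lt_of_lt_of_le hpos hy1)
    rw [h3 x hx0, h3 y hy0]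
    refine lt_of_eq_of_lt (@dist_eq_norm (X →L[ℝ] X →L[ℝ] ℝ) _ (B' x) (B' y)) ?_
    rw [dist_eq_norm] at hxy
    have h4 := norm_B_sub_le0 C p N D B h B' hB j hx0 (y := y) (hxy.le.trans (by gcongr))
    have h5 : ‖B' x - B' y‖ * (1 / C) ≤ ‖B' x - B' y‖ * ‖x‖ :=
      mul_le_mul_of_nonneg_left hx1 (norm_nonneg (B' x - B' y))
    have h6 : ‖B' x - B' y‖ * (1 / C) < ε * (1 / C) := by
      have e : ε * (1 / C) = ε / C := by ring
      rw [e]
      linarith
    exact lt_of_mul_lt_mul_right h6 hpos.le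

end Pool.Agent.H47.SS
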