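import Pool.Agent.H47.SS.Sd

/-!
# S0: two general lemmas
-/

set_option autoImplicit false

open Filter Topology

namespace Pool.Agent.H47.SS

open Pool.Agent.H47.SR

variable {X : Type*} [NormedAddCommGroup X] [NormedSpace ℝ X]

/-- ROW S0a. See the proof of `Pool.Agent.H47.SR.unifC2_of_est` (Pool/Agent/H47/SR/F3.lean): on the open set `{x ≠ 0}` `fderiv ℝ N = D`,
`fderiv ℝ (fderiv ℝ N) = B`. -/
theorem unifC2_of_hasFDerivAt {N : X → ℝ} (D : X → X →L[ℝ] ℝ) (B : X → X →L[ℝ] X →L[ℝ] ℝ)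
    (h1 : ∀ x, x ≠ 0 → HasFDerivAt N (D x) x) (h2 : ∀ x, x ≠ 0 → HasFDerivAt D (B x) x)
    (h3 : ∀ x, x ≠ 0 → ContinuousAt B x) (h0 : N 0 ≠ 1)
    (h4 : ∀ ε : ℝ, 0 < ε → ∃ δ : ℝ, 0 < δ ∧ ∀ x y : X, N x = 1 → N y = 1 → ‖x - y‖ ≤ δ →
      ‖B x - B y‖ ≤ ε) : UnifC2 N := by
  have hopen : IsOpen {x : X | x ≠ 0} := isOpen_ne
  have h2' : ∀ x : X, x ≠ 0 → HasFDerivAt (fderiv ℝ N) (B x) x := by
    intro x hx
    refine (h2 x hx).congr_of_eventuallyEq ?_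
    filter_upwards [hopen.mem_nhds hx] with y hy
    exact (h1 y hy).fderiv
  have h5 : ∀ x : X, x ≠ 0 → fderiv ℝ (fderiv ℝ N) x = B x := fun x hx => (h2' x hx).fderiv
  have hcont : ContinuousOn (fderiv ℝ (fderiv ℝ N)) {x : X | x ≠ 0} := by
    have hcB : ContinuousOn B {x : X | x ≠ 0} := fun x hx => (h3 x hx).continuousWithinAt
    exact hcB.congr fun x hx => h5 x hx
  refine ⟨?_, ?_⟩
  · have e : (2 : WithTop ℕ∞) = 1 + 1 := by norm_num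
    rw [e, contDiffOn_succ_iff_fderiv_of_isOpen hopen]
    refine ⟨fun x hx => (h1 x hx).differentiableAt.differentiableWithinAt, fun h => by simp at h, ?_⟩
    have e' : (1 : WithTop ℕ∞) = 0 + 1 := by norm_num
    rw [e', contDiffOn_succ_iff_fderiv_of_isOpen hopen]
    refine ⟨fun x hx => (h2' x hx).differentiableAt.differentiableWithinAt, fun h => by simp at h, ?_⟩
    rw [contDiffOn_zero]
    exact hcont
  · refine (Metric.uniformContinuousOn_iff (α := X) (β := X →L[ℝ] X →L[ℝ] ℝ)).2 ?_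
    intro ε hε
    obtain ⟨δ, hδ, h6⟩ := h4 (ε / 2) (by linarith)
    refine ⟨δ, hδ, ?_⟩
    intro x hx y hy hxy
    have hx1 : N x = 1 := hx
    have hy1 : N y = 1 := hy
    have hx0 : x ≠ 0 := by
      rintro rfl
      exact h0 hx1
    have hy0 : y ≠ 0 := by
      rintro rfl
      exact h0 hy1
    rw [h5 x hx0, h5 y hy0]
    refine lt_of_eq_of_lt (@dist_eq_norm (X →L[ℝ] X →L[ℝ] ℝ) _ (B x) (B y)) ?_
    rw [dist_eq_norm] at hxy
    have h7 := h6 x y hx1 hy1 hxy.le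
    exact lt_of_le_of_lt h7 (by linarith)

/-- ROW S0b. Given `R, ε` (wlog `0 < R`): take `η` for `ε / (R + 1)` and `δ > 0` with `C (2 δ / η + δ) ≤ ε`. If `δ / η ≤ ‖x‖` then
`‖x - y‖ ≤ δ ≤ η ‖x‖`; otherwise `‖x‖ < δ / η`, `‖y‖ ≤ δ / η + δ` and `‖B x‖ + ‖B y‖ ≤ ε`. (General normed space `G` for
the values, to avoid instance trouble.) -/
theorem uc_of_hom {G : Type*} [NormedAddCommGroup G] {B : X → G} {C : ℝ} (hC : 0 ≤ C)
    (hb : ∀ x, ‖B x‖ ≤ C * ‖x‖)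
    (hH : ∀ ε : ℝ, 0 < ε → ∃ η : ℝ, 0 < η ∧ ∀ x y : X, x ≠ 0 → ‖x - y‖ ≤ η * ‖x‖ →
      ‖B x - B y‖ ≤ ε * ‖x‖) (R ε : ℝ) (hε : 0 < ε) :
    ∃ δ : ℝ, 0 < δ ∧ ∀ x y : X, ‖x‖ ≤ R → ‖y‖ ≤ R → ‖x - y‖ ≤ δ → ‖B x - B y‖ ≤ ε := by
  have hR : 0 < |R| + 1 := by positivity
  obtain ⟨η, hη, h1⟩ := hH (ε / (|R| + 1)) (by positivity)
  have h2 : 0 < 2 / η + 1 := by positivity
  refine ⟨ε / ((C + 1) * (2 / η + 1)), by positivity, ?_⟩
  intro x y hx hy hxy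
  obtain ⟨δ, hδ⟩ : ∃ δ, δ = ε / ((C + 1) * (2 / η + 1)) := ⟨_, rfl⟩
  have hδ0 : 0 < δ := by rw [hδ]; positivity
  rw [← hδ] at hxy
  rcases le_or_gt (δ / η) ‖x‖ with h3 | h3
  · have h4 : 0 < ‖x‖ := lt_of_lt_of_le (div_pos hδ0 hη) h3
    have h5 : δ ≤ η * ‖x‖ := by
      rw [div_le_iff₀ hη] at h3
      linarith
    have h6 := h1 x y (norm_pos_iff.1 h4) (hxy.trans h5)
    refine h6.trans ?_
    have h7 : ‖x‖ ≤ |R| + 1 := by
      have := le_abs_self R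
      linarith
    calc ε / (|R| + 1) * ‖x‖ ≤ ε / (|R| + 1) * (|R| + 1) :=
          mul_le_mul_of_nonneg_left h7 (by positivity)
      _ = ε := div_mul_cancel₀ _ hR.ne'
  · have h4 : ‖y‖ ≤ ‖x‖ + δ := by
      have h5 : ‖y‖ ≤ ‖x‖ + ‖x - y‖ := by
        have := norm_sub_le x (x - y)
        rwa [sub_sub_cancel] at this
      linarith
    have h5 : ‖x‖ + ‖y‖ ≤ δ * (2 / η + 1) := by
      have e : δ * (2 / η + 1) = 2 * (δ / η) + δ := by ring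
      rw [e]
      linarith
    calc ‖B x - B y‖ ≤ ‖B x‖ + ‖B y‖ := norm_sub_le _ _
      _ ≤ C * ‖x‖ + C * ‖y‖ := add_le_add (hb x) (hb y)
      _ = C * (‖x‖ + ‖y‖) := by ring
      _ ≤ C * (δ * (2 / η + 1)) := mul_le_mul_of_nonneg_left h5 hC
      _ = C / (C + 1) * ε := by
        rw [hδ]
        field_simp
      _ ≤ 1 * ε := by
        refine mul_le_mul_of_nonneg_right ?_ hε.le
        rw [div_le_one (by linarith)]
        linarith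
      _ = ε := one_mul _

end Pool.Agent.H47.SS
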