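import Pool.Agent.H47.SS.S1
import Pool.Agent.H47.SR.D1

/-!
# S2: homogeneous continuity of the second derivative of `N ^ 3`
-/

set_option autoImplicit false

open Filter Topology

namespace Pool.Agent.H47.SS

open Pool.Agent.H47.SR

variable {X : Type*} [NormedAddCommGroup X] [NormedSpace ℝ X]

private theorem lip_gen {G : Type*} [NormedAddCommGroup G] (u v w : G) {a b : ℝ}
    (h1 : ‖u - v - w‖ ≤ a) (h2 : ‖w‖ ≤ b) : ‖v - u‖ ≤ a + b := by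
  have h3 : v - u = -((u - v - w) + w) := by abel
  rw [h3, norm_neg]
  exact (norm_add_le _ _).trans (add_le_add h1 h2)

/-- `tay_fd` with `r = ‖x‖ η`, `η ≤ 1/2` from `exists_cnt` (`ε := 1`): `‖N' y - N' x‖ ≤ ‖B x‖ ‖y - x‖ + (1 / ‖x‖) ‖y - x‖`,
and `‖B x‖ ≤ C / ‖x‖` (`exists_bdd`). -/
theorem exists_lip {N : X → ℝ} (hN : EqNorm N) (hU : UnifC2 N) {ε : ℝ} (hε : 0 < ε) :
    ∃ η : ℝ, 0 < η ∧ ∀ x y : X, x ≠ 0 → ‖x - y‖ ≤ η * ‖x‖ →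
      ‖fderiv ℝ N x - fderiv ℝ N y‖ ≤ ε := by
  obtain ⟨C, hC⟩ := exists_bdd hN hU
  obtain ⟨η₁, hη₁, hc⟩ := exists_cnt hN hU (ε := 1) one_pos
  obtain ⟨C', hC', hCC⟩ : ∃ C' : ℝ, 0 ≤ C' ∧ C ≤ C' := ⟨max C 0, le_max_right _ _, le_max_left _ _⟩
  refine ⟨min (1 / 2) (min η₁ (ε / (C' + 1))), by positivity, fun x y hx hxy => ?_⟩
  obtain ⟨η, hη⟩ : ∃ η, η = min (1 / 2 : ℝ) (min η₁ (ε / (C' + 1))) := ⟨_, rfl⟩
  rw [← hη] at hxy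
  have hη0 : 0 < η := by rw [hη]; positivity
  have hη2 : η ≤ 1 / 2 := by rw [hη]; exact min_le_left _ _
  have hη3 : η ≤ η₁ := by rw [hη]; exact (min_le_right _ _).trans (min_le_left _ _)
  have hη4 : η * (C' + 1) ≤ ε := by
    rw [← le_div_iff₀ (by positivity), hη]
    exact (min_le_right _ _).trans (min_le_right _ _)
  have hx0 : 0 < ‖x‖ := norm_pos_iff.2 hx
  have hB : ∀ z : X, ‖x - z‖ ≤ η * ‖x‖ →
      ‖fderiv ℝ (fderiv ℝ N) x - fderiv ℝ (fderiv ℝ N) z‖ ≤ 1 / ‖x‖ := by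
    intro z hz
    rw [le_div_iff₀ hx0]
    exact hc x z hx (hz.trans (mul_le_mul_of_nonneg_right hη3 hx0.le))
  have hh : ‖y - x‖ ≤ η * ‖x‖ := by rw [norm_sub_rev]; exact hxy
  have h1 := tay_fd hU.1 (r := η * ‖x‖) (ε := 1 / ‖x‖) (by nlinarith) hB hh
  rw [add_sub_cancel] at h1
  have h2 : ‖fderiv ℝ (fderiv ℝ N) x (y - x)‖ ≤ C' * η := by
    refine (ContinuousLinearMap.le_opNorm _ _).trans ?_
    have h3 : 0 ≤ ‖fderiv ℝ (fderiv ℝ N) x‖ := nn_gen (G := X →L[ℝ] X →L[ℝ] ℝ) _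
    calc ‖fderiv ℝ (fderiv ℝ N) x‖ * ‖y - x‖ ≤ ‖fderiv ℝ (fderiv ℝ N) x‖ * (η * ‖x‖) :=
          mul_le_mul_of_nonneg_left hh h3
      _ = (‖fderiv ℝ (fderiv ℝ N) x‖ * ‖x‖) * η := by ring
      _ ≤ C' * η := mul_le_mul_of_nonneg_right ((hC x hx).trans hCC) hη0.le
  have h4 : 1 / ‖x‖ * ‖y - x‖ ≤ η := by
    rw [one_div, inv_mul_le_iff₀ hx0, mul_comm]
    exact hh
  have h5 := lip_gen _ _ _ (h1.trans h4) h2
  refine h5.trans ?_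
  linarith

private theorem b3_est {G : Type*} [NormedAddCommGroup G] [NormedSpace ℝ G] (T S P Q : G)
    (a b : ℝ) :
    ‖(6 * a) • T + (3 * a ^ 2) • P - ((6 * b) • S + (3 * b ^ 2) • Q)‖ ≤
      6 * |a - b| * ‖T‖ + 6 * |b| * ‖T - S‖ + 3 * a ^ 2 * ‖P - Q‖ + 3 * |a ^ 2 - b ^ 2| * ‖Q‖ := by
  have h1 : (6 * a) • T + (3 * a ^ 2) • P - ((6 * b) • S + (3 * b ^ 2) • Q) =
      (6 * (a - b)) • T + (6 * b) • (T - S) + (3 * a ^ 2) • (P - Q) +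
        (3 * (a ^ 2 - b ^ 2)) • Q := by
    module
  rw [h1]
  refine (norm_add_le _ _).trans (add_le_add ((norm_add_le _ _).trans (add_le_add
    ((norm_add_le _ _).trans (add_le_add ?_ ?_)) ?_)) ?_)
  · rw [norm_smul, Real.norm_eq_abs, abs_mul, abs_of_pos (by norm_num : (0 : ℝ) < 6)]
  · rw [norm_smul, Real.norm_eq_abs, abs_mul, abs_of_pos (by norm_num : (0 : ℝ) < 6)]
  · rw [norm_smul, Real.norm_eq_abs, abs_of_nonneg (by positivity)]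
  · rw [norm_smul, Real.norm_eq_abs, abs_mul, abs_of_pos (by norm_num : (0 : ℝ) < 3)]

private theorem sr_norm (f : X →L[ℝ] ℝ) {G : Type*} [NormedAddCommGroup G] [NormedSpace ℝ G]
    (g : G) : ‖f.smulRight g‖ = ‖f‖ * ‖g‖ := ContinuousLinearMap.norm_smulRight_apply f g

private theorem sr_sub {G : Type*} [NormedAddCommGroup G] [NormedSpace ℝ G]
    (f f' : X →L[ℝ] ℝ) (g g' : G) :
    ‖f.smulRight g - f'.smulRight g'‖ ≤ ‖f - f'‖ * ‖g‖ + ‖f'‖ * ‖g - g'‖ := by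
  have h1 : f.smulRight g - f'.smulRight g' = (f - f').smulRight g + f'.smulRight (g - g') := by
    ext x
    simp only [sub_apply, add_apply,
      ContinuousLinearMap.smulRight_apply]
    module
  rw [h1, ← sr_norm, ← sr_norm]
  exact norm_add_le _ _

/-- `B3 x - B3 y` is the sum of `6 (N x - N y) • N'x ⊗ N'x`, `6 N y • (N'x ⊗ N'x - N'y ⊗ N'y)`,
`3 N x ^ 2 • (N''x - N''y)` and `3 (N x ^ 2 - N y ^ 2) • N''y`. -/
theorem B3_hom {N : X → ℝ} (hN : EqNorm N) (hU : UnifC2 N) (ε : ℝ) (hε : 0 < ε) :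
    ∃ η : ℝ, 0 < η ∧ ∀ x y : X, x ≠ 0 → ‖x - y‖ ≤ η * ‖x‖ → ‖B3 N x - B3 N y‖ ≤ ε * ‖x‖ := by
  obtain ⟨C, hC⟩ := exists_bdd hN hU
  have hN' := hN
  obtain ⟨⟨c, K, hc0, hK0, hcK⟩, -, -⟩ := hN'
  obtain ⟨M, hM1, hMK, hMC⟩ : ∃ M : ℝ, 1 ≤ M ∧ K ≤ M ∧ C ≤ M :=
    ⟨max 1 (max K C), le_max_left _ _, (le_max_left _ _).trans (le_max_right _ _),
      (le_max_right _ _).trans (le_max_right _ _)⟩
  have hM0 : 0 < M := by linarith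
  obtain ⟨δ, hδ⟩ : ∃ δ : ℝ, δ = ε / (42 * M ^ 3) := ⟨_, rfl⟩
  have hδ0 : 0 < δ := by rw [hδ]; positivity
  have hδM : 42 * M ^ 3 * δ = ε := by
    rw [hδ]
    field_simp
  obtain ⟨η₁, hη₁, hl⟩ := exists_lip hN hU hδ0
  obtain ⟨η₂, hη₂, hcn⟩ := exists_cnt hN hU hδ0
  refine ⟨min (min (1 / 2) δ) (min η₁ η₂), by positivity, fun x y hx hxy => ?_⟩
  obtain ⟨η, hη⟩ : ∃ η, η = min (min (1 / 2 : ℝ) δ) (min η₁ η₂) := ⟨_, rfl⟩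
  rw [← hη] at hxy
  have hη0 : 0 < η := by rw [hη]; positivity
  have hηa : η ≤ 1 / 2 := by rw [hη]; exact (min_le_left _ _).trans (min_le_left _ _)
  have hηb : η ≤ δ := by rw [hη]; exact (min_le_left _ _).trans (min_le_right _ _)
  have hηc : η ≤ η₁ := by rw [hη]; exact (min_le_right _ _).trans (min_le_left _ _)
  have hηd : η ≤ η₂ := by rw [hη]; exact (min_le_right _ _).trans (min_le_right _ _)
  have hx0 : 0 < ‖x‖ := norm_pos_iff.2 hx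
  have hxy2 : ‖x - y‖ ≤ ‖x‖ / 2 := by nlinarith
  have hyx : ‖y‖ ≤ 3 / 2 * ‖x‖ := by
    have h1 := norm_sub_norm_le y x
    rw [norm_sub_rev] at h1
    linarith
  have hxy3 : ‖x‖ ≤ 2 * ‖y‖ := by
    have h1 := norm_sub_norm_le x y
    linarith
  have hy0 : 0 < ‖y‖ := by linarith
  have hy : y ≠ 0 := norm_pos_iff.1 hy0
  -- first derivatives
  have hfb : ∀ z : X, z ≠ 0 → ‖fderiv ℝ N z‖ ≤ M := by
    intro z hz
    refine ContinuousLinearMap.opNorm_le_bound _ hM0.le fun h => ?_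
    rw [Real.norm_eq_abs]
    refine (abs_fderiv_le hN hU.1 hz h).trans ((hcK h).2.trans ?_)
    exact mul_le_mul_of_nonneg_right hMK (norm_nonneg _)
  have hf := hfb x hx
  have hg := hfb y hy
  have hfg : ‖fderiv ℝ N x - fderiv ℝ N y‖ ≤ δ :=
    hl x y hx (hxy.trans (mul_le_mul_of_nonneg_right hηc hx0.le))
  have hf0 : 0 ≤ ‖fderiv ℝ N x‖ := norm_nonneg _
  have hg0 : 0 ≤ ‖fderiv ℝ N y‖ := norm_nonneg _
  have hfg0 : 0 ≤ ‖fderiv ℝ N x - fderiv ℝ N y‖ := norm_nonneg _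
  -- values
  have ha : |N x| ≤ M * ‖x‖ := by
    have h1 := (hcK x).1
    rw [abs_of_nonneg (le_trans (by positivity) h1)]
    exact (hcK x).2.trans (mul_le_mul_of_nonneg_right hMK hx0.le)
  have hb : |N y| ≤ 3 / 2 * (M * ‖x‖) := by
    have h1 := (hcK y).1
    rw [abs_of_nonneg (le_trans (by positivity) h1)]
    refine (hcK y).2.trans ((mul_le_mul_of_nonneg_right hMK hy0.le).trans ?_)
    nlinarith
  have hab : |N x - N y| ≤ M * (δ * ‖x‖) := by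
    refine (abs_sub_le_N hN x y).trans ((hcK _).2.trans ?_)
    refine (mul_le_mul_of_nonneg_right hMK (norm_nonneg _)).trans ?_
    refine mul_le_mul_of_nonneg_left (hxy.trans ?_) hM0.le
    exact mul_le_mul_of_nonneg_right hηb hx0.le
  have ha2 : N x ^ 2 ≤ (M * ‖x‖) ^ 2 := by
    rw [← sq_abs]
    exact pow_le_pow_left₀ (abs_nonneg _) ha 2
  have hab2 : |N x ^ 2 - N y ^ 2| ≤ M * (δ * ‖x‖) * (5 / 2 * (M * ‖x‖)) := by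
    have h1 : N x ^ 2 - N y ^ 2 = (N x - N y) * (N x + N y) := by ring
    rw [h1, abs_mul]
    refine mul_le_mul hab ((abs_add_le _ _).trans ?_) (abs_nonneg _) (by positivity)
    linarith
  -- second derivatives
  have hQ : ‖fderiv ℝ (fderiv ℝ N) y‖ * ‖x‖ ≤ 2 * M := by
    have h1 := hC y hy
    have h2 : 0 ≤ ‖fderiv ℝ (fderiv ℝ N) y‖ := nn_gen (G := X →L[ℝ] X →L[ℝ] ℝ) _
    nlinarith
  have hPQ : ‖fderiv ℝ (fderiv ℝ N) x - fderiv ℝ (fderiv ℝ N) y‖ * ‖x‖ ≤ δ :=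
    hcn x y hx (hxy.trans (mul_le_mul_of_nonneg_right hηd hx0.le))
  -- the estimate
  have key := b3_est (G := X →L[ℝ] X →L[ℝ] ℝ) ((fderiv ℝ N x).smulRight (fderiv ℝ N x))
    ((fderiv ℝ N y).smulRight (fderiv ℝ N y)) (fderiv ℝ (fderiv ℝ N) x)
    (fderiv ℝ (fderiv ℝ N) y) (N x) (N y)
  refine le_trans key ?_
  have hT : ‖(fderiv ℝ N x).smulRight (fderiv ℝ N x)‖ ≤ M * M := by
    rw [sr_norm]
    exact mul_le_mul hf hf hf0 hM0.le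
  have hTS : ‖(fderiv ℝ N x).smulRight (fderiv ℝ N x) -
      (fderiv ℝ N y).smulRight (fderiv ℝ N y)‖ ≤ 2 * (M * δ) := by
    refine (sr_sub _ _ _ _).trans ?_
    have h1 := mul_le_mul hfg hf hf0 hδ0.le
    have h2 := mul_le_mul hg hfg hfg0 hM0.le
    linarith
  have hT0 : 0 ≤ ‖(fderiv ℝ N x).smulRight (fderiv ℝ N x)‖ := nn_gen (G := X →L[ℝ] X →L[ℝ] ℝ) _
  have hTS0 : 0 ≤ ‖(fderiv ℝ N x).smulRight (fderiv ℝ N x) -
      (fderiv ℝ N y).smulRight (fderiv ℝ N y)‖ := nn_gen (G := X →L[ℝ] X →L[ℝ] ℝ) _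
  have hQ0 : 0 ≤ ‖fderiv ℝ (fderiv ℝ N) y‖ := nn_gen (G := X →L[ℝ] X →L[ℝ] ℝ) _
  have hPQ0 : 0 ≤ ‖fderiv ℝ (fderiv ℝ N) x - fderiv ℝ (fderiv ℝ N) y‖ := nn_gen (G := X →L[ℝ] X →L[ℝ] ℝ) _
  have t1 : 6 * |N x - N y| * ‖(fderiv ℝ N x).smulRight (fderiv ℝ N x)‖ ≤
      6 * (M ^ 3 * δ) * ‖x‖ := by
    have h1 := mul_le_mul hab hT hT0 (by positivity)
    calc _ = 6 * (|N x - N y| * ‖(fderiv ℝ N x).smulRight (fderiv ℝ N x)‖) := by ring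
      _ ≤ 6 * (M * (δ * ‖x‖) * (M * M)) := by linarith
      _ = _ := by ring
  have t2 : 6 * |N y| * ‖(fderiv ℝ N x).smulRight (fderiv ℝ N x) -
      (fderiv ℝ N y).smulRight (fderiv ℝ N y)‖ ≤ 18 * (M ^ 3 * δ) * ‖x‖ := by
    have h1 := mul_le_mul hb hTS hTS0 (by positivity)
    have h2 : M ^ 2 ≤ M ^ 3 := pow_le_pow_right₀ hM1 (by norm_num)
    have h3 : M ^ 2 * (δ * ‖x‖) ≤ M ^ 3 * (δ * ‖x‖) :=
      mul_le_mul_of_nonneg_right h2 (by positivity)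
    calc _ = 6 * (|N y| * ‖(fderiv ℝ N x).smulRight (fderiv ℝ N x) -
        (fderiv ℝ N y).smulRight (fderiv ℝ N y)‖) := by ring
      _ ≤ 6 * (3 / 2 * (M * ‖x‖) * (2 * (M * δ))) := by linarith
      _ = 18 * (M ^ 2 * (δ * ‖x‖)) := by ring
      _ ≤ 18 * (M ^ 3 * (δ * ‖x‖)) := by linarith
      _ = _ := by ring
  have t3 : 3 * N x ^ 2 * ‖fderiv ℝ (fderiv ℝ N) x - fderiv ℝ (fderiv ℝ N) y‖ ≤
      3 * (M ^ 3 * δ) * ‖x‖ := by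
    have h1 := mul_le_mul_of_nonneg_right ha2 hPQ0
    have h2 : M ^ 2 ≤ M ^ 3 := pow_le_pow_right₀ hM1 (by norm_num)
    have h3 : M ^ 2 * (δ * ‖x‖) ≤ M ^ 3 * (δ * ‖x‖) :=
      mul_le_mul_of_nonneg_right h2 (by positivity)
    have h4 : (M ^ 2 * ‖x‖) * (‖fderiv ℝ (fderiv ℝ N) x - fderiv ℝ (fderiv ℝ N) y‖ * ‖x‖) ≤
        (M ^ 2 * ‖x‖) * δ := mul_le_mul_of_nonneg_left hPQ (by positivity)
    calc _ = 3 * (N x ^ 2 * ‖fderiv ℝ (fderiv ℝ N) x - fderiv ℝ (fderiv ℝ N) y‖) := by ring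
      _ ≤ 3 * ((M * ‖x‖) ^ 2 * ‖fderiv ℝ (fderiv ℝ N) x - fderiv ℝ (fderiv ℝ N) y‖) := by linarith
      _ = 3 * ((M ^ 2 * ‖x‖) *
          (‖fderiv ℝ (fderiv ℝ N) x - fderiv ℝ (fderiv ℝ N) y‖ * ‖x‖)) := by ring
      _ ≤ 3 * ((M ^ 2 * ‖x‖) * δ) := by linarith
      _ = 3 * (M ^ 2 * (δ * ‖x‖)) := by ring
      _ ≤ 3 * (M ^ 3 * (δ * ‖x‖)) := by linarith
      _ = _ := by ring
  have t4 : 3 * |N x ^ 2 - N y ^ 2| * ‖fderiv ℝ (fderiv ℝ N) y‖ ≤ 15 * (M ^ 3 * δ) * ‖x‖ := by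
    have h1 := mul_le_mul_of_nonneg_right hab2 hQ0
    have h4 : (15 / 2 * M ^ 2 * δ * ‖x‖) * (‖fderiv ℝ (fderiv ℝ N) y‖ * ‖x‖) ≤
        (15 / 2 * M ^ 2 * δ * ‖x‖) * (2 * M) := mul_le_mul_of_nonneg_left hQ (by positivity)
    calc _ = 3 * (|N x ^ 2 - N y ^ 2| * ‖fderiv ℝ (fderiv ℝ N) y‖) := by ring
      _ ≤ 3 * (M * (δ * ‖x‖) * (5 / 2 * (M * ‖x‖)) * ‖fderiv ℝ (fderiv ℝ N) y‖) := by linarith
      _ = (15 / 2 * M ^ 2 * δ * ‖x‖) * (‖fderiv ℝ (fderiv ℝ N) y‖ * ‖x‖) := by ring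
      _ ≤ (15 / 2 * M ^ 2 * δ * ‖x‖) * (2 * M) := h4
      _ = _ := by ring
  calc _ ≤ 6 * (M ^ 3 * δ) * ‖x‖ + 18 * (M ^ 3 * δ) * ‖x‖ + 3 * (M ^ 3 * δ) * ‖x‖ +
        15 * (M ^ 3 * δ) * ‖x‖ := add_le_add (add_le_add (add_le_add t1 t2) t3) t4
    _ = (42 * M ^ 3 * δ) * ‖x‖ := by ring
    _ = ε * ‖x‖ := by rw [hδM]

end Pool.Agent.H47.SS
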