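import Pool.Agent.H47.SS.S4

/-!
# S5: sums, assembly
-/

set_option autoImplicit false

open Filter Topology

namespace Pool.Agent.H47.SS

open Pool.Agent.H47.SR

variable {X : Type*} [NormedAddCommGroup X] [NormedSpace ℝ X]

/-- A bound for a multiple. -/
theorem norm_smul_le_s5 {G : Type*} [NormedAddCommGroup G] [NormedSpace ℝ G] {c C k r : ℝ}
    (hc : 0 < c) (hs : c * C ≤ k) (hr : 0 ≤ r) {g : G} (hg : ‖g‖ ≤ C * r) :
    ‖c • g‖ ≤ k * r := by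
  rw [norm_smul, Real.norm_eq_abs, abs_of_pos hc]
  calc c * ‖g‖ ≤ c * (C * r) := mul_le_mul_of_nonneg_left hg hc.le
    _ = (c * C) * r := by ring
    _ ≤ k * r := mul_le_mul_of_nonneg_right hs hr

/-- A bound for a difference of multiples. -/
theorem norm_smul_sub_le_s5 {G : Type*} [NormedAddCommGroup G] [NormedSpace ℝ G] {c ε : ℝ}
    (hc : 0 < c) {a b : G} (h : ‖a - b‖ ≤ ε / c) : ‖c • a - c • b‖ ≤ ε := by
  rw [← smul_sub, norm_smul, Real.norm_eq_abs, abs_of_pos hc]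
  calc c * ‖a - b‖ ≤ c * (ε / c) := mul_le_mul_of_nonneg_left h hc.le
    _ = ε := by field_simp

/-- ROW S5. `tsum_d1`, `tsum_d2`, `tsum_bound`, `tsum_uc`. (`‖c n • B n x‖ ≤ c n * C n * ‖x‖ ≤ (1/2)^n ‖x‖`; the uniform continuity of `c n • B n`
from `Tw.uc` with `ε / c n`.) -/
theorem tsum_tw (f : ℕ → X → ℝ) (D : ℕ → X → X →L[ℝ] ℝ) (B : ℕ → X → X →L[ℝ] X →L[ℝ] ℝ)
    (C c : ℕ → ℝ) (h : ∀ n, Tw (f n) (D n) (B n) (C n)) (hc : ∀ n, 0 < c n)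
    (hs : ∀ n, c n * C n ≤ (1 / 2) ^ n) :
    Tw (fun y => ∑' n, c n * f n y) (fun y => ∑' n, c n • D n y) (fun y => ∑' n, c n • B n y)
      2 := by
  refine ⟨fun x => tsum_d1 f D B C c h hc hs x, fun x => tsum_d2 f D B C c h hc hs x,
    fun x => ?_, fun x => ?_, fun x => ?_, fun R ε hε => ?_⟩
  · have hb : ∀ n, ‖c n * f n x‖ ≤ (1 / 2) ^ n * ‖x‖ ^ 3 := fun n =>
      norm_smul_le_s5 (hc n) (hs n) (by positivity) ((h n).bf x)
    exact (tsum_bound (fun n => c n * f n x) (‖x‖ ^ 3) (by positivity) hb).2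
  · have hb : ∀ n, ‖c n • D n x‖ ≤ (1 / 2) ^ n * ‖x‖ ^ 2 := fun n =>
      norm_smul_le_s5 (hc n) (hs n) (by positivity) ((h n).bD x)
    exact (tsum_bound (fun n => c n • D n x) (‖x‖ ^ 2) (by positivity) hb).2
  · have hb : ∀ n, ‖c n • B n x‖ ≤ (1 / 2) ^ n * ‖x‖ := fun n =>
      norm_smul_le_s5 (G := X →L[ℝ] X →L[ℝ] ℝ) (hc n) (hs n) (norm_nonneg x) ((h n).bB x)
    exact (tsum_bound (fun n => c n • B n x) ‖x‖ (norm_nonneg x) hb).2
  · refine tsum_uc (fun n y => c n • B n y) (fun n y =>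
      norm_smul_le_s5 (G := X →L[ℝ] X →L[ℝ] ℝ) (hc n) (hs n) (norm_nonneg y) ((h n).bB y))
      (fun n R ε hε => ?_) R ε hε
    obtain ⟨δ, hδ, hd⟩ := (h n).uc R (ε / c n) (div_pos hε (hc n))
    exact ⟨δ, hδ, fun x y hx hy hxy =>
      norm_smul_sub_le_s5 (G := X →L[ℝ] X →L[ℝ] ℝ) (hc n) (hd x y hx hy hxy)⟩

end Pool.Agent.H47.SS
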