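import Pool.Agent.H47.SS.S0

/-!
# S6: the cube root
-/

set_option autoImplicit false

open Filter Topology

namespace Pool.Agent.H47.SS

open Pool.Agent.H47.SR

variable {X : Type*} [NormedAddCommGroup X] [NormedSpace ℝ X]

/-- The first derivative of `F ^ (1/3)`. -/
noncomputable def Dr (F : X → ℝ) (D : X → X →L[ℝ] ℝ) (x : X) : X →L[ℝ] ℝ :=
  ((1 / 3) * F x ^ (-(2 / 3) : ℝ)) • D x

/-- The second derivative of `F ^ (1/3)`. -/
noncomputable def Br (F : X → ℝ) (D : X → X →L[ℝ] ℝ) (B : X → X →L[ℝ] X →L[ℝ] ℝ) (x : X) :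
    X →L[ℝ] X →L[ℝ] ℝ :=
  (-(2 / 9) * F x ^ (-(5 / 3) : ℝ)) • (D x).smulRight (D x) +
    ((1 / 3) * F x ^ (-(2 / 3) : ℝ)) • B x

/-- ROW S6a. `HasFDerivAt.rpow_const` (or `HasDerivAt.comp_hasFDerivAt` with `Real.hasDerivAt_rpow_const`), product rule. -/
theorem hasFDerivAt_root {F : X → ℝ} {D : X → X →L[ℝ] ℝ} {B : X → X →L[ℝ] X →L[ℝ] ℝ}
    (h1 : ∀ x, HasFDerivAt F (D x) x) (h2 : ∀ x, HasFDerivAt D (B x) x) {x : X} (hx : 0 < F x) :
    HasFDerivAt (fun y => F y ^ (1 / 3 : ℝ)) (Dr F D x) x ∧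
      HasFDerivAt (Dr F D) (Br F D B x) x := by
  constructor
  · have h := (h1 x).rpow_const (p := (1 / 3 : ℝ)) (Or.inl hx.ne')
    have e : (1 / 3 : ℝ) - 1 = -(2 / 3) := by norm_num
    rw [e] at h
    exact h
  · have h := ((h1 x).rpow_const (p := (-(2 / 3) : ℝ)) (Or.inl hx.ne')).const_mul (1 / 3 : ℝ)
    have e : (-(2 / 3) : ℝ) - 1 = -(5 / 3) := by norm_num
    rw [e] at h
    have h3 := h.smul (h2 x)
    have e2 : ((1 / 3) * F x ^ (-(2 / 3) : ℝ)) • B x +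
        ((1 / 3 : ℝ) • ((-(2 / 3) : ℝ) * F x ^ (-(5 / 3) : ℝ)) • D x).smulRight (D x) =
        Br F D B x := by
      refine ContinuousLinearMap.ext fun u => ContinuousLinearMap.ext fun v => ?_
      change ((1 / 3) * F x ^ (-(2 / 3) : ℝ)) * B x u v +
        ((1 / 3 : ℝ) * (((-(2 / 3) : ℝ) * F x ^ (-(5 / 3) : ℝ)) * D x u)) * D x v =
        (-(2 / 9) * F x ^ (-(5 / 3) : ℝ)) * (D x u * D x v) +
        ((1 / 3) * F x ^ (-(2 / 3) : ℝ)) * B x u v
      ring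
    rw [e2] at h3
    exact h3

theorem smulR_sub {G : Type*} [NormedAddCommGroup G] [NormedSpace ℝ G] (a b : X →L[ℝ] ℝ)
    (u v : G) : ‖a.smulRight u - b.smulRight v‖ ≤ ‖a - b‖ * ‖u‖ + ‖b‖ * ‖u - v‖ := by
  have e : a.smulRight u - b.smulRight v = (a - b).smulRight u + b.smulRight (u - v) := by
    ext w
    change a w • u - b w • v = (a w - b w) • u + b w • (u - v)
    rw [sub_smul, smul_sub]
    abel
  rw [e]
  refine (norm_add_le _ _).trans ?_
  rw [ContinuousLinearMap.norm_smulRight_apply, ContinuousLinearMap.norm_smulRight_apply]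

theorem comb_sub {G : Type*} [NormedAddCommGroup G] [NormedSpace ℝ G] (s t : ℝ)
    (u u' v v' : G) : ‖(s • u + t • v) - (s • u' + t • v')‖ ≤ |s| * ‖u - u'‖ + |t| * ‖v - v'‖ := by
  have e : (s • u + t • v) - (s • u' + t • v') = s • (u - u') + t • (v - v') := by
    rw [smul_sub, smul_sub]; abel
  rw [e]
  refine (norm_add_le _ _).trans ?_
  rw [norm_smul, norm_smul, Real.norm_eq_abs, Real.norm_eq_abs]

theorem contAt_comb {G : Type*} [NormedAddCommGroup G] [NormedSpace ℝ G] {s t : X → ℝ}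
    {f g : X → G} {x : X} (hs : ContinuousAt s x) (ht : ContinuousAt t x) (hf : ContinuousAt f x)
    (hg : ContinuousAt g x) : ContinuousAt (fun y => s y • f y + t y • g y) x :=
  (hs.smul hf).add (ht.smul hg)

theorem contAt_of_uc {G : Type*} [NormedAddCommGroup G] {B : X → G}
    (uc : ∀ R ε : ℝ, 0 < ε → ∃ δ : ℝ, 0 < δ ∧ ∀ x y : X, ‖x‖ ≤ R → ‖y‖ ≤ R → ‖x - y‖ ≤ δ →
      ‖B x - B y‖ ≤ ε) (x : X) : ContinuousAt B x := by
  rw [Metric.continuousAt_iff]
  intro ε hε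
  obtain ⟨δ, hδ, h⟩ := uc (‖x‖ + 1) (ε / 2) (half_pos hε)
  refine ⟨min δ 1, lt_min hδ one_pos, fun {y} hy => ?_⟩
  rw [dist_eq_norm] at hy ⊢
  have h1 : ‖y - x‖ ≤ δ := (hy.trans_le (min_le_left _ _)).le
  have h2 : ‖y - x‖ ≤ 1 := (hy.trans_le (min_le_right _ _)).le
  have h3 : ‖y‖ ≤ ‖x‖ + 1 := by
    have := norm_add_le (y - x) x
    rw [sub_add_cancel] at this
    linarith
  have h4 := h y x h3 (by linarith) h1
  linarith

theorem lip_of_bd {G : Type*} [NormedAddCommGroup G] [NormedSpace ℝ G] {D : X → G}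
    {B : X → X →L[ℝ] G} {M R : ℝ} (h2 : ∀ x, HasFDerivAt D (B x) x)
    (hB : ∀ x, ‖x‖ ≤ R → ‖B x‖ ≤ M) {x y : X} (hx : ‖x‖ ≤ R) (hy : ‖y‖ ≤ R) :
    ‖D x - D y‖ ≤ M * ‖x - y‖ := by
  refine (convex_closedBall (0 : X) R).norm_image_sub_le_of_norm_hasFDerivWithin_le (f := D)
    (f' := B) (fun z _ => (h2 z).hasFDerivWithinAt) (fun z hz => hB z ?_) ?_ ?_
  · simpa using hz
  · simpa using hy
  · simpa using hx

/-- ROW S6b. `unifC2_of_hasFDerivAt` (S0) with `Dr`, `Br`. `Br` is continuous off 0 (`F, D, B` are continuous). On the sphere `F x = 1`, so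
`Br x = -(2/9) D x ⊗ D x + (1/3) B x`; the sphere is bounded (`c ‖x‖^3 ≤ 1`); `D` is Lipschitz on balls (mean value inequality with
`bB`), bounded there by `bD`; `B` is uniformly continuous there by `uc`. `F 0 = 0` by `bf`. -/
theorem unifC2_root {F : X → ℝ} {D : X → X →L[ℝ] ℝ} {B : X → X →L[ℝ] X →L[ℝ] ℝ} {C : ℝ}
    (h : Tw F D B C) {c : ℝ} (hc : 0 < c) (hF : ∀ x, c * ‖x‖ ^ 3 ≤ F x) :
    UnifC2 (fun y => F y ^ (1 / 3 : ℝ)) := by
  have hpos : ∀ x : X, x ≠ 0 → 0 < F x := by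
    intro x hx
    have : 0 < ‖x‖ := norm_pos_iff.2 hx
    exact lt_of_lt_of_le (by positivity) (hF x)
  refine unifC2_of_hasFDerivAt (Dr F D) (Br F D B) (fun x hx => ?_) (fun x hx => ?_)
    (fun x hx => ?_) ?_ ?_
  · exact (hasFDerivAt_root h.d1 h.d2 (hpos x hx)).1
  · exact (hasFDerivAt_root h.d1 h.d2 (hpos x hx)).2
  · have cF : ContinuousAt F x := (h.d1 x).continuousAt
    have cD : ContinuousAt D x := (h.d2 x).continuousAt
    have cB : ContinuousAt B x := contAt_of_uc (G := X →L[ℝ] X →L[ℝ] ℝ) h.uc x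
    have c1 : ContinuousAt (fun y => (D y).smulRight (D y) : X → X →L[ℝ] X →L[ℝ] ℝ) x :=
      (ContinuousLinearMap.smulRightL ℝ X (X →L[ℝ] ℝ)).continuous₂.continuousAt.comp
        (cD.prodMk cD)
    have c2 : ContinuousAt (fun y => -(2 / 9) * F y ^ (-(5 / 3) : ℝ)) x :=
      (cF.rpow_const (Or.inl (hpos x hx).ne')).const_mul _
    have c3 : ContinuousAt (fun y => (1 / 3) * F y ^ (-(2 / 3) : ℝ)) x :=
      (cF.rpow_const (Or.inl (hpos x hx).ne')).const_mul _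
    exact contAt_comb (G := X →L[ℝ] X →L[ℝ] ℝ) c2 c3 c1 cB
  · have h0 : F 0 = 0 := by
      have := h.bf 0
      simp only [norm_zero] at this
      have h1 : |F 0| ≤ 0 := by simpa using this
      exact abs_eq_zero.1 (le_antisymm h1 (abs_nonneg _))
    simp only [h0]
    rw [Real.zero_rpow (by norm_num)]
    exact zero_ne_one
  · intro ε hε
    -- the sphere
    have hone : ∀ x : X, F x ^ (1 / 3 : ℝ) = 1 → F x = 1 := by
      intro x hx
      have h0 : 0 ≤ F x := le_trans (by positivity) (hF x)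
      have h1 : (F x ^ (1 / 3 : ℝ)) ^ (3 : ℝ) = F x := by
        rw [← Real.rpow_mul h0]
        norm_num
      rw [← h1, hx, Real.one_rpow]
    set R : ℝ := max 1 (1 / c) with hR
    have hR1 : 1 ≤ R := le_max_left _ _
    have hR0 : 0 < R := lt_of_lt_of_le one_pos hR1
    have hbd : ∀ x : X, F x ^ (1 / 3 : ℝ) = 1 → ‖x‖ ≤ R := by
      intro x hx
      by_cases h1 : ‖x‖ ≤ 1
      · exact h1.trans hR1
      · push Not at h1
        have h2 := hF x
        rw [hone x hx] at h2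
        have h3 : ‖x‖ ≤ ‖x‖ ^ 3 := by nlinarith [sq_nonneg (‖x‖)]
        have h4 : ‖x‖ ≤ 1 / c := by
          rw [le_div_iff₀ hc]
          nlinarith
        exact h4.trans (le_max_right _ _)
    set M : ℝ := |C| * R with hM
    have hM0 : 0 ≤ M := by positivity
    have hBM : ∀ x : X, ‖x‖ ≤ R → ‖B x‖ ≤ M := by
      intro x hx
      refine (h.bB x).trans ?_
      exact mul_le_mul (le_abs_self C) hx (norm_nonneg _) (abs_nonneg _)
    set K : ℝ := |C| * R ^ 2 with hK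
    have hK0 : 0 ≤ K := by positivity
    have hDK : ∀ x : X, ‖x‖ ≤ R → ‖D x‖ ≤ K := by
      intro x hx
      refine (h.bD x).trans ?_
      exact mul_le_mul (le_abs_self C) (pow_le_pow_left₀ (norm_nonneg _) hx 2) (by positivity)
        (abs_nonneg _)
    obtain ⟨δ1, hδ1, hu⟩ := h.uc R ε hε
    have hden : 0 < 2 * K * M + 1 := by positivity
    refine ⟨min δ1 (ε / (2 * K * M + 1)), lt_min hδ1 (div_pos hε hden), fun x y hx hy hxy => ?_⟩
    have hxR := hbd x hx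
    have hyR := hbd y hy
    have ex : Br F D B x = (-(2 / 9) : ℝ) • (D x).smulRight (D x) + (1 / 3 : ℝ) • B x := by
      unfold Br
      rw [hone x hx, Real.one_rpow, Real.one_rpow, mul_one, mul_one]
    have ey : Br F D B y = (-(2 / 9) : ℝ) • (D y).smulRight (D y) + (1 / 3 : ℝ) • B y := by
      unfold Br
      rw [hone y hy, Real.one_rpow, Real.one_rpow, mul_one, mul_one]
    rw [ex, ey]
    refine (comb_sub (G := X →L[ℝ] X →L[ℝ] ℝ) _ _ _ _ _ _).trans ?_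
    have hD : ‖D x - D y‖ ≤ M * ‖x - y‖ := lip_of_bd (G := X →L[ℝ] ℝ) h.d2 hBM hxR hyR
    have h5 : ‖(D x).smulRight (D x) - (D y).smulRight (D y)‖ ≤
        ‖D x - D y‖ * ‖D x‖ + ‖D y‖ * ‖D x - D y‖ := smulR_sub (G := X →L[ℝ] ℝ) _ _ _ _
    have h6 : ‖B x - B y‖ ≤ ε := hu x y hxR hyR (hxy.trans (min_le_left _ _))
    have h7 : ‖x - y‖ ≤ ε / (2 * K * M + 1) := hxy.trans (min_le_right _ _)
    have h8 : (2 * K * M + 1) * ‖x - y‖ ≤ ε := by
      rw [le_div_iff₀ hden] at h7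
      linarith
    have h9 : ‖D x - D y‖ * ‖D x‖ ≤ M * ‖x - y‖ * K :=
      mul_le_mul hD (hDK x hxR) (norm_nonneg _) (by positivity)
    have h10 : ‖D y‖ * ‖D x - D y‖ ≤ K * (M * ‖x - y‖) :=
      mul_le_mul (hDK y hyR) hD (norm_nonneg _) hK0
    have h11 : ‖(D x).smulRight (D x) - (D y).smulRight (D y)‖ ≤ ε := by
      have h12 : 0 ≤ ‖x - y‖ := norm_nonneg _
      nlinarith
    rw [abs_neg, abs_of_pos (by norm_num : (0 : ℝ) < 2 / 9), abs_of_pos (by norm_num : (0 : ℝ) < 1 / 3)]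
    have e9 : (2 / 9 : ℝ) * ‖(D x).smulRight (D x) - (D y).smulRight (D y)‖ ≤ 2 / 9 * ε :=
      mul_le_mul_of_nonneg_left h11 (by norm_num)
    have e3 : (1 / 3 : ℝ) * ‖B x - B y‖ ≤ 1 / 3 * ε := mul_le_mul_of_nonneg_left h6 (by norm_num)
    linarith

end Pool.Agent.H47.SS
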