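import Pool.Agent.H47.SS.Sd

/-!
# S8: one scale of uniform convexity
-/

set_option autoImplicit false

open Filter Topology

namespace Pool.Agent.H47.SS

open Pool.Agent.H47.SR

variable {X : Type*} [NormedAddCommGroup X] [NormedSpace ℝ X]

private theorem S8_nonneg {N : X → ℝ} (hN : EqNorm N) (x : X) : 0 ≤ N x := by
  obtain ⟨⟨c, C, hc, _, h⟩, _, _⟩ := hN
  exact (mul_nonneg hc.le (norm_nonneg x)).trans (h x).1

private theorem S8_sub {N : X → ℝ} (hN : EqNorm N) (x y : X) : N (x - y) ≤ N x + N y := by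
  have h1 := hN.2.1 x (-y)
  have h2 := hN.2.2 (-1) y
  rw [neg_one_smul, abs_neg, abs_one, one_mul] at h2
  rw [← sub_eq_add_neg, h2] at h1
  exact h1

private theorem S8_cube (a b t : ℝ) (ha : 0 ≤ a) (hb : 0 ≤ b) (ht : 0 ≤ t) (h : t ≤ (a + b) / 2) :
    t ^ 3 ≤ (a ^ 3 + b ^ 3) / 2 - 3 / 8 * (a + b) * (a - b) ^ 2 := by
  have h1 : t ^ 3 ≤ ((a + b) / 2) ^ 3 := pow_le_pow_left₀ ht h 3
  have h2 : ((a + b) / 2) ^ 3 = (a ^ 3 + b ^ 3) / 2 - 3 / 8 * (a + b) * (a - b) ^ 2 := by ring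
  rw [h2] at h1
  exact h1

private theorem S8_real (M m d t : ℝ) (hM : 0 < M) (hm : 0 ≤ m) (hmM : m ≤ M) (hd : 0 < d) (hd1 : d ≤ 1)
    (ht : 0 ≤ t) (ht1 : t ≤ (1 - d) * M) (ht2 : t ≤ (M + m) / 2) :
    t ^ 3 ≤ (M ^ 3 + m ^ 3) / 2 - min (3 / 8 * (d / 3) ^ 2) (d / 2) * M ^ 3 := by
  have hM3 : 0 < M ^ 3 := pow_pos hM 3
  by_cases hc : d / 3 * M ≤ M - m
  · have h1 := S8_cube M m t hM.le hm ht ht2
    have h2 : (d / 3 * M) ^ 2 ≤ (M - m) ^ 2 := pow_le_pow_left₀ (by positivity) hc 2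
    have h3 : M * (d / 3 * M) ^ 2 ≤ (M + m) * (M - m) ^ 2 :=
      mul_le_mul (by linarith) h2 (by positivity) (by linarith)
    have h4 : min (3 / 8 * (d / 3) ^ 2) (d / 2) * M ^ 3 ≤ 3 / 8 * (d / 3) ^ 2 * M ^ 3 :=
      mul_le_mul_of_nonneg_right (min_le_left _ _) hM3.le
    have h5 : 3 / 8 * (d / 3) ^ 2 * M ^ 3 = 3 / 8 * (M * (d / 3 * M) ^ 2) := by ring
    have h6 : 3 / 8 * (M + m) * (M - m) ^ 2 = 3 / 8 * ((M + m) * (M - m) ^ 2) := by ring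
    rw [h6] at h1
    rw [h5] at h4
    linarith
  · have hc2 : (1 - d / 3) * M ≤ m := by
      have := not_le.1 hc
      linarith
    have h1 : ((1 - d / 3) * M) ^ 3 ≤ m ^ 3 := pow_le_pow_left₀ (mul_nonneg (by linarith) hM.le) hc2 3
    have h2 : t ^ 3 ≤ ((1 - d) * M) ^ 3 := pow_le_pow_left₀ ht ht1 3
    have h3 : (1 - d) ^ 3 ≤ 1 - d := by
      have h4 : (1 - d) ^ 2 ≤ 1 := pow_le_one₀ (by linarith) (by linarith)
      have h5 : (1 - d) ^ 3 = (1 - d) ^ 2 * (1 - d) := by ring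
      rw [h5]
      have h6 : 0 ≤ 1 - d := by linarith
      have h7 := mul_le_mul_of_nonneg_right h4 h6
      linarith
    have h4 : 1 - d ≤ (1 - d / 3) ^ 3 := by
      have h5 : (1 - d / 3) ^ 3 = 1 - d + (d / 3) ^ 2 * (3 - d / 3) := by ring
      rw [h5]
      have h6 : 0 ≤ (d / 3) ^ 2 * (3 - d / 3) := mul_nonneg (sq_nonneg _) (by linarith)
      linarith
    have h5 : (1 - d) * M ^ 3 ≤ m ^ 3 := by
      have h6 := mul_le_mul_of_nonneg_right h4 hM3.le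
      rw [mul_pow] at h1
      linarith
    have h6 : t ^ 3 ≤ (1 - d) * M ^ 3 := by
      rw [mul_pow] at h2
      have h7 := mul_le_mul_of_nonneg_right h3 hM3.le
      linarith
    have h7 : min (3 / 8 * (d / 3) ^ 2) (d / 2) * M ^ 3 ≤ d / 2 * M ^ 3 :=
      mul_le_mul_of_nonneg_right (min_le_right _ _) hM3.le
    nlinarith

private theorem S8_mid {N : X → ℝ} (hN : EqNorm N) (x y : X) : N ((1 / 2 : ℝ) • (x + y)) ≤ (N x + N y) / 2 := by
  rw [hN.2.2, abs_of_pos (by norm_num : (0 : ℝ) < 1 / 2)]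
  have := hN.2.1 x y
  linarith

/-- ROW S8. Put `d' = min d 1`, `γ = min ((3/8) (d'/3)^2) (d'/2) * (e R / 2)^3`. Let `M = max (N x) (N y)`, `m` the other value; `M ≤ R` and `e R < N (x - y) ≤
2 M`. By `hom`, `N (M⁻¹ x) ≤ 1`, `N (M⁻¹ y) ≤ 1` and `e ≤ e R / M < N (M⁻¹ x - M⁻¹ y)`, so `N ((x + y) / 2) ≤ (1 - d) M ≤ (1 - d') M`.
If `M - m ≥ (d'/3) M`: `N ((x+y)/2) ≤ (M + m) / 2` and `(M³ + m³)/2 - ((M + m)/2)³ = (3/8) (M + m) (M - m)² ≥ (3/8) (d'/3)² M³`.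
If `m ≥ (1 - d'/3) M`: `(M³ + m³)/2 ≥ M³ (1 + (1 - d'/3)³)/2 ≥ M³ (1 - d'/2)` and `((1 - d') M)³ ≤ (1 - d') M³`. -/
theorem gap {N : X → ℝ} (hN : EqNorm N) {e d : ℝ} (he : 0 < e) (hd : 0 < d)
    (hu : ∀ x y : X, N x ≤ 1 → N y ≤ 1 → e < N (x - y) → N ((1 / 2 : ℝ) • (x + y)) ≤ 1 - d)
    {R : ℝ} (hR : 0 < R) :
    ∃ γ : ℝ, 0 < γ ∧ ∀ x y : X, N x ≤ R → N y ≤ R → e * R < N (x - y) →
      N ((1 / 2 : ℝ) • (x + y)) ^ 3 ≤ (N x ^ 3 + N y ^ 3) / 2 - γ := by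
  have hd' : 0 < min d 1 := lt_min hd one_pos
  have hg : 0 < min (3 / 8 * (min d 1 / 3) ^ 2) (min d 1 / 2) := lt_min (by positivity) (by positivity)
  refine ⟨min (3 / 8 * (min d 1 / 3) ^ 2) (min d 1 / 2) * (e * R / 2) ^ 3, by positivity, ?_⟩
  intro x y hx hy hxy
  set M := max (N x) (N y) with hMd
  set m := min (N x) (N y) with hmd
  have hmM : m ≤ M := min_le_max
  have hm0 : 0 ≤ m := le_min (S8_nonneg hN x) (S8_nonneg hN y)
  have hMR : M ≤ R := max_le hx hy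
  have hsum : M + m = N x + N y := max_add_min _ _
  have hxM : N x ≤ M := le_max_left _ _
  have hyM : N y ≤ M := le_max_right _ _
  have hM2 : e * R / 2 < M := by
    have := S8_sub hN x y
    linarith
  have hM0 : 0 < M := lt_trans (by positivity) hM2
  have hi : ∀ z : X, N (M⁻¹ • z) = N z / M := by
    intro z
    rw [hN.2.2, abs_of_pos (inv_pos.2 hM0)]
    ring
  have h1 : N ((1 / 2 : ℝ) • (M⁻¹ • x + M⁻¹ • y)) ≤ 1 - d := by
    apply hu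
    · rw [hi, div_le_one hM0]
      exact hxM
    · rw [hi, div_le_one hM0]
      exact hyM
    · rw [← smul_sub, hi, lt_div_iff₀ hM0]
      exact lt_of_le_of_lt (mul_le_mul_of_nonneg_left hMR he.le) hxy
  rw [← smul_add, smul_comm, hi, div_le_iff₀ hM0] at h1
  have h2 : N ((1 / 2 : ℝ) • (x + y)) ≤ (1 - min d 1) * M := by
    refine h1.trans (mul_le_mul_of_nonneg_right ?_ hM0.le)
    have := min_le_left d 1
    linarith
  have h3 := S8_real M m (min d 1) (N ((1 / 2 : ℝ) • (x + y))) hM0 hm0 hmM hd' (min_le_right _ _)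
    (S8_nonneg hN _) h2 (by rw [hsum]; exact S8_mid hN x y)
  have h4 : M ^ 3 + m ^ 3 = N x ^ 3 + N y ^ 3 := by
    rcases le_total (N x) (N y) with h | h
    · rw [hMd, hmd, max_eq_right h, min_eq_left h]
      ring
    · rw [hMd, hmd, max_eq_left h, min_eq_right h]
  rw [h4] at h3
  have h5 : (e * R / 2) ^ 3 ≤ M ^ 3 := pow_le_pow_left₀ (by positivity) hM2.le 3
  have h6 := mul_le_mul_of_nonneg_left h5 hg.le
  linarith

/-- ROW S8b. `N ((x + y) / 2) ≤ (N x + N y) / 2` and convexity of `t ^ 3` on `t ≥ 0`. -/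
theorem mid_cube {N : X → ℝ} (hN : EqNorm N) (x y : X) :
    N ((1 / 2 : ℝ) • (x + y)) ^ 3 ≤ (N x ^ 3 + N y ^ 3) / 2 := by
  have h1 := S8_cube (N x) (N y) _ (S8_nonneg hN x) (S8_nonneg hN y) (S8_nonneg hN _) (S8_mid hN x y)
  have h2 : 0 ≤ 3 / 8 * (N x + N y) * (N x - N y) ^ 2 :=
    mul_nonneg (mul_nonneg (by norm_num) (add_nonneg (S8_nonneg hN x) (S8_nonneg hN y))) (sq_nonneg _)
  linarith

end Pool.Agent.H47.SS
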