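import Pool.Agent.H47.SS.S7
import Pool.Agent.H47.SS.S8

/-!
# S9: uniform convexity of the sum
-/

set_option autoImplicit false

open Filter Topology

namespace Pool.Agent.H47.SS

open Pool.Agent.H47.SR

variable {X : Type*} [NormedAddCommGroup X] [NormedSpace ℝ X]

theorem S9_nonneg {N : X → ℝ} (hN : EqNorm N) (x : X) : 0 ≤ N x := by
  obtain ⟨⟨c, C, hc, -, h⟩, -⟩ := hN
  exact le_trans (mul_nonneg hc.le (norm_nonneg x)) (h x).1

theorem S9_summable {K : ℝ} (N : ℕ → X → ℝ) (hE : ∀ n, EqNorm (N n))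
    (hupp : ∀ n x, N n x ≤ K * ‖x‖) (c : ℕ → ℝ)
    (hc : ∀ n, 0 < c n) (hs : ∀ n, c n ≤ (1 / 2) ^ n) (x : X) :
    Summable (fun n => c n * N n x ^ 3) := by
  refine Summable.of_nonneg_of_le (g := fun n => c n * N n x ^ 3)
    (f := fun n : ℕ => (1 / 2 : ℝ) ^ n * (K * ‖x‖) ^ 3) ?_ ?_ ?_
  · intro n
    exact mul_nonneg (hc n).le (pow_nonneg (S9_nonneg (hE n) x) 3)
  · intro n
    refine mul_le_mul (hs n) (pow_le_pow_left₀ (S9_nonneg (hE n) x) (hupp n x) 3)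
      (pow_nonneg (S9_nonneg (hE n) x) 3) (by positivity)
  · exact (summable_geometric_of_lt_one (by norm_num) (by norm_num)).mul_right _

theorem S9_root {s t : ℝ} (h0 : 0 ≤ s) (ht0 : 0 ≤ t) (h : s ≤ 1 - t) :
    s ^ (1 / 3 : ℝ) ≤ 1 - t / 3 := by
  have ht1 : t ≤ 1 := by linarith
  have h1 : s ≤ (1 - t / 3) ^ 3 := by
    nlinarith [mul_nonneg (mul_nonneg ht0 ht0) (by linarith : (0 : ℝ) ≤ 9 - t)]
  have h2 : s ^ (1 / 3 : ℝ) ≤ ((1 - t / 3) ^ 3) ^ (1 / 3 : ℝ) :=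
    Real.rpow_le_rpow h0 h1 (by norm_num)
  have h3 : ((1 - t / 3) ^ 3) ^ (1 / 3 : ℝ) = 1 - t / 3 := by
    have h4 : (0 : ℝ) ≤ 1 - t / 3 := by linarith
    rw [← Real.rpow_natCast, ← Real.rpow_mul h4]
    norm_num
  rw [h3] at h2
  exact h2

theorem S9_le_one {s : ℝ} (h0 : 0 ≤ s) (h : s ^ (1 / 3 : ℝ) ≤ 1) : s ≤ 1 := by
  by_contra hcon
  push Not at hcon
  have := Real.one_lt_rpow hcon (by norm_num : (0 : ℝ) < 1 / 3)
  linarith

/-- ROW S9. Write `M x = (∑' n, c n * N n x ^ 3) ^ (1/3)`. From `eqNorm_sum` there are `a, b > 0` with `a ‖x‖ ≤ M x ≤ b ‖x‖`. Let `M x, M y ≤ 1`, `ε ≤ M (x - y)`. Then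
`‖x‖, ‖y‖ ≤ 1 / a`, so `N n x, N n y ≤ R := K / a`, and `N n (x - y) ≥ ‖x - y‖ / K ≥ ε / (b K)`. Take `n` with `R / (n + 1) < ε / (b K)`; `gap` for `N n`
(`e = 1 / (n + 1)`) gives `γ`; with `mid_cube` for the other terms `∑' c m * N m ((x + y)/2)^3 ≤ 1 - c n γ` (sum of the inequalities,
`tsum_le_tsum` for the terms with `c n γ` split off at `n`, e.g. compare with `c m (N m x^3 + N m y^3)/2 - (if m = n then c n γ else 0)`), and
`(1 - t)^(1/3) ≤ 1 - t/3` (`Real.rpow_le_rpow`, `(1 - t) ≤ (1 - t/3)^3`). -/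
theorem uconv_sum {K : ℝ} (hK : 0 < K) (N : ℕ → X → ℝ) (hE : ∀ n, EqNorm (N n))
    (hlow : ∀ n x, ‖x‖ ≤ K * N n x) (hupp : ∀ n x, N n x ≤ K * ‖x‖) (c : ℕ → ℝ)
    (hc : ∀ n, 0 < c n) (hs : ∀ n, c n ≤ (1 / 2) ^ n)
    (hu : ∀ n : ℕ, ∃ d : ℝ, 0 < d ∧ ∀ x y : X, N n x ≤ 1 → N n y ≤ 1 →
      1 / ((n : ℝ) + 1) < N n (x - y) → N n ((1 / 2 : ℝ) • (x + y)) ≤ 1 - d) :
    UConv (fun x => (∑' n, c n * N n x ^ 3) ^ (1 / 3 : ℝ)) := by
  intro ε hε
  obtain ⟨⟨a, b, ha, hb, hab⟩, -⟩ := eqNorm_sum hK N hE hlow hupp c hc hs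
  obtain ⟨n, hn⟩ := exists_nat_gt (K / a * (b * K) / ε)
  obtain ⟨d, hd, hu⟩ := hu n
  have hR : 0 < K / a := div_pos hK ha
  have hn1 : (0 : ℝ) < (n : ℝ) + 1 := by positivity
  obtain ⟨γ, hγ, hgap⟩ := gap (hE n) (e := 1 / ((n : ℝ) + 1)) (by positivity) hd hu hR
  have hthr : 1 / ((n : ℝ) + 1) * (K / a) < ε / (b * K) := by
    rw [div_lt_iff₀ hε] at hn
    rw [lt_div_iff₀ (by positivity), div_mul_eq_mul_div, one_mul, div_mul_eq_mul_div,
      div_lt_iff₀ hn1]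
    nlinarith
  refine ⟨c n * γ / 3, by have := hc n; positivity, ?_⟩
  intro x y hx hy hxy
  have hSnn : ∀ z, 0 ≤ ∑' m, c m * N m z ^ 3 := fun z =>
    tsum_nonneg fun m => mul_nonneg (hc m).le (pow_nonneg (S9_nonneg (hE m) z) 3)
  have hsum := S9_summable N hE hupp c hc hs
  have hSx : ∑' m, c m * N m x ^ 3 ≤ 1 := S9_le_one (hSnn x) hx
  have hSy : ∑' m, c m * N m y ^ 3 ≤ 1 := S9_le_one (hSnn y) hy
  have hNR : ∀ z : X, (∑' m, c m * N m z ^ 3) ^ (1 / 3 : ℝ) ≤ 1 → N n z ≤ K / a := by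
    intro z hz
    have h1 : a * ‖z‖ ≤ 1 := le_trans (hab z).1 hz
    have h2 : ‖z‖ ≤ 1 / a := by
      rw [le_div_iff₀ ha]
      linarith
    refine (hupp n z).trans ?_
    have h3 := mul_le_mul_of_nonneg_left h2 hK.le
    rwa [mul_one_div] at h3
  have hNxy : 1 / ((n : ℝ) + 1) * (K / a) < N n (x - y) := by
    refine lt_of_lt_of_le hthr ?_
    have h1 : ε ≤ b * ‖x - y‖ := le_trans hxy (hab (x - y)).2
    have h2 := mul_le_mul_of_nonneg_left (hlow n (x - y)) hb.le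
    rw [div_le_iff₀ (by positivity)]
    nlinarith
  have hmid : ∑' m, c m * N m ((1 / 2 : ℝ) • (x + y)) ^ 3 ≤ 1 - c n * γ := by
    have hg : Summable (fun m => (c m * N m x ^ 3 + c m * N m y ^ 3) / 2 -
        (if m = n then c n * γ else 0)) :=
      (((hsum x).add (hsum y)).div_const 2).sub (hasSum_ite_eq n (c n * γ)).summable
    have h1 : ∑' m, c m * N m ((1 / 2 : ℝ) • (x + y)) ^ 3 ≤
        ∑' m, ((c m * N m x ^ 3 + c m * N m y ^ 3) / 2 - (if m = n then c n * γ else 0)) := by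
      refine (hsum _).tsum_le_tsum ?_ hg
      intro m
      by_cases hm : m = n
      · subst hm
        rw [if_pos rfl]
        have h2 := hgap x y (hNR x hx) (hNR y hy) hNxy
        have h3 := mul_le_mul_of_nonneg_left h2 (hc m).le
        nlinarith
      · rw [if_neg hm]
        have h2 := mid_cube (hE m) x y
        have h3 := mul_le_mul_of_nonneg_left h2 (hc m).le
        nlinarith
    have h2 : ∑' m, ((c m * N m x ^ 3 + c m * N m y ^ 3) / 2 - (if m = n then c n * γ else 0)) =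
        ((∑' m, c m * N m x ^ 3) + (∑' m, c m * N m y ^ 3)) / 2 - c n * γ := by
      rw [(((hsum x).add (hsum y)).div_const 2).tsum_sub (hasSum_ite_eq n (c n * γ)).summable,
        tsum_div_const, (hsum x).tsum_add (hsum y), tsum_ite_eq]
    rw [h2] at h1
    linarith
  exact S9_root (hSnn _) (mul_nonneg (hc n).le hγ.le) hmid

end Pool.Agent.H47.SS
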