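import Pool.Agent.H47.SS.L1
import Pool.Agent.H47.SS.L2
import Pool.Agent.H47.SS.L3
import Pool.Agent.H47.SS.L5
import Pool.Agent.H47.SS.S0
import Pool.Agent.H47.SS.S2
import Pool.Agent.H47.SS.S5
import Pool.Agent.H47.SS.S6
import Pool.Agent.H47.SS.S9

/-!
# G2: assembly of the scale by scale version
-/

set_option autoImplicit false

open Filter Topology

namespace Pool.Agent.H47.SS

open Pool.Agent.H47.SR

universe u

variable {X : Type u} [NormedAddCommGroup X] [NormedSpace ℝ X]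

/-- One scale: norms on the finite-dimensional subspaces with common constants give a norm on
the whole space. -/
theorem exists_norm_scale (K e d : ℝ) (ω : ℝ → ℝ) (hK : 0 < K)
    (hω : ∀ ε : ℝ, 0 < ε → 0 < ω ε)
    (h : ∀ F : Finset X, ∃ N : Submodule.span ℝ (F : Set X) → ℝ, Mod K (fun _ => 0) ω N ∧
      ∀ x y, N x ≤ 1 → N y ≤ 1 → e ≤ N (x - y) → N ((1 / 2 : ℝ) • (x + y)) ≤ 1 - d) :
    ∃ N : X → ℝ, EqNorm N ∧ (∀ x, ‖x‖ ≤ K * N x) ∧ (∀ x, N x ≤ K * ‖x‖) ∧ UnifC2 N ∧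
      ∀ x y, N x ≤ 1 → N y ≤ 1 → e < N (x - y) → N ((1 / 2 : ℝ) • (x + y)) ≤ 1 - d := by
  classical
  obtain ⟨C, p, hCp⟩ := exists_est0 (X := X) K ω hK hω
  choose N0 hM hu using h
  have key : ∀ F : Finset X, ∃ (N' : X → ℝ) (D' : X → X → ℝ) (B' : X → X → X → ℝ),
      (∀ (x : X) (hx : x ∈ Submodule.span ℝ (F : Set X)), N' x = N0 F ⟨x, hx⟩) ∧
        Est0 C p (Submodule.span ℝ (F : Set X)) N' D' B' := fun F => hCp _ (N0 F) (hM F)
  choose N D B hNe hE using key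
  let U : Ultrafilter (Finset X) := Ultrafilter.of atTop
  have hU : (U : Filter (Finset X)) ≤ atTop := Ultrafilter.of_le _
  have hS : ∀ x : X, ∀ᶠ F : Finset X in (U : Filter (Finset X)),
      x ∈ Submodule.span ℝ (F : Set X) := by
    intro x
    apply hU
    filter_upwards [eventually_ge_atTop ({x} : Finset X)] with F hF
    exact Submodule.subset_span (hF (Finset.mem_singleton_self x))
  obtain ⟨N', D', B', hN, hD, hB⟩ := exists_funs0 U C p
    (fun F : Finset X => Submodule.span ℝ (F : Set X)) N D B hE hS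
  have hE' := est0_lim U C p (fun F : Finset X => Submodule.span ℝ (F : Set X)) N D B hE hS
    N' D' B' hN hD hB
  have hlow : ∀ x, ‖x‖ ≤ K * N' x := by
    intro x
    refine ge_of_tendsto ((hN x).const_mul K) ?_
    filter_upwards [hS x] with F hx
    rw [hNe F x hx]
    exact (hM F).low ⟨x, hx⟩
  have hupp : ∀ x, N' x ≤ K * ‖x‖ := by
    intro x
    refine le_of_tendsto (hN x) ?_
    filter_upwards [hS x] with F hx
    rw [hNe F x hx]
    exact (hM F).upp ⟨x, hx⟩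
  refine ⟨N', ⟨⟨K⁻¹, K, inv_pos.2 hK, hK, fun x => ⟨?_, hupp x⟩⟩,
    fun x y => hE'.tri x trivial y trivial, fun t x => hE'.hom t x trivial⟩, hlow, hupp,
    unifC2_of_est0 C p N' D' B' hE', fun x y hx hy hxy => ?_⟩
  · rw [inv_mul_le_iff₀ hK]
    exact hlow x
  · refine ucv_lim0 U C p (fun F : Finset X => Submodule.span ℝ (F : Set X)) N D B hE hS e d ?_
      N' hN x y hx hy hxy
    intro F x hx y hy h1 h2 h3
    rw [hNe F x hx] at h1
    rw [hNe F y hy] at h2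
    rw [hNe F (x - y) (Submodule.sub_mem _ hx hy)] at h3
    rw [hNe F ((1 / 2 : ℝ) • (x + y)) (Submodule.smul_mem _ _ (Submodule.add_mem _ hx hy))]
    exact hu F ⟨x, hx⟩ ⟨y, hy⟩ h1 h2 h3

theorem exists_tw {N : X → ℝ} (hN : EqNorm N) (hU : UnifC2 N) :
    ∃ C : ℝ, 0 ≤ C ∧ Tw (fun y => N y ^ 3) (D3 N) (B3 N) C := by
  obtain ⟨C, hC, h1, h2, h3⟩ := exists_bounds hN hU
  exact ⟨C, hC, hasFDerivAt_N3 hN hU, hasFDerivAt_D3 hN hU, h1, h2, h3,
    fun R ε hε => uc_of_hom (G := X →L[ℝ] X →L[ℝ] ℝ) hC h3 (B3_hom hN hU) R ε hε⟩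

/-- Uniform convexity may be obtained one scale at a time. -/
theorem pnorm_of_scales {K : ℝ} (hK : 0 < K) (N : ℕ → X → ℝ) (hE : ∀ n, EqNorm (N n))
    (hlow : ∀ n x, ‖x‖ ≤ K * N n x) (hupp : ∀ n x, N n x ≤ K * ‖x‖) (hU : ∀ n, UnifC2 (N n))
    (hu : ∀ n : ℕ, ∃ d : ℝ, 0 < d ∧ ∀ x y : X, N n x ≤ 1 → N n y ≤ 1 →
      1 / ((n : ℝ) + 1) < N n (x - y) → N n ((1 / 2 : ℝ) • (x + y)) ≤ 1 - d) :
    ∃ M : X → ℝ, PNorm M := by
  choose C hC hT using fun n => exists_tw (hE n) (hU n)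
  let c : ℕ → ℝ := fun n => (1 / 2) ^ n / (1 + C n)
  have hpos : ∀ n, 0 < 1 + C n := fun n => by linarith [hC n]
  have hc : ∀ n, 0 < c n := fun n => div_pos (by positivity) (hpos n)
  have hs : ∀ n, c n ≤ (1 / 2) ^ n := by
    intro n
    refine div_le_self (by positivity) ?_
    linarith [hC n]
  have hs' : ∀ n, c n * C n ≤ (1 / 2) ^ n := by
    intro n
    have h1 : c n * (1 + C n) = (1 / 2) ^ n := div_mul_cancel₀ _ (hpos n).ne'
    nlinarith [hc n]
  have hTw := tsum_tw (fun n y => N n y ^ 3) (fun n => D3 (N n)) (fun n => B3 (N n)) C c hT hc hs'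
  refine ⟨fun x => (∑' n, c n * N n x ^ 3) ^ (1 / 3 : ℝ), eqNorm_sum hK N hE hlow hupp c hc hs,
    uconv_sum hK N hE hlow hupp c hc hs hu,
    unifC2_root hTw (div_pos (hc 0) (pow_pos hK 3)) (fun x => sum_low hK N hlow hupp c hc hs x)⟩

end Pool.Agent.H47.SS
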