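import Pool.Agent.H47.SS.Sd
import Pool.Agent.H47.SR.D2
import Pool.Agent.H47.SR.U3

/-!
# L1: estimates on a subspace with common constants
-/

set_option autoImplicit false

namespace Pool.Agent.H47.SS

open Pool.Agent.H47.SR

universe u

variable {X : Type u} [NormedAddCommGroup X] [NormedSpace ℝ X]

section aux

variable {E : Type*} [NormedAddCommGroup E] [NormedSpace ℝ E]

theorem l1_cnt {N : E → ℝ} {c : ℝ} {x y : E} (h k : E)
    (hle : ‖fderiv ℝ (fderiv ℝ N) x - fderiv ℝ (fderiv ℝ N) y‖ * ‖x‖ ≤ c) :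
    |fderiv ℝ (fderiv ℝ N) x h k - fderiv ℝ (fderiv ℝ N) y h k| * ‖x‖ ≤ c * ‖h‖ * ‖k‖ := by
  have h2 := d2_key (fderiv ℝ (fderiv ℝ N) x - fderiv ℝ (fderiv ℝ N) y) ‖x‖ _ h k
    (norm_nonneg _) hle
  rw [sub_apply, sub_apply] at h2
  exact h2

theorem l1_tay {N : E → ℝ} {c : ℝ} {q : ℕ} (hC : ContDiffOn ℝ 2 N {x : E | x ≠ 0})
    {x : E} (hx : x ≠ 0)
    (hc : ∀ y : E, ‖x - y‖ ≤ ‖x‖ / ((q : ℝ) + 2) →
      ‖fderiv ℝ (fderiv ℝ N) x - fderiv ℝ (fderiv ℝ N) y‖ * ‖x‖ ≤ c)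
    (h k : E) (hle : ‖h‖ ≤ ‖x‖ / ((q : ℝ) + 2)) :
    |fderiv ℝ N (x + h) k - fderiv ℝ N x k - fderiv ℝ (fderiv ℝ N) x h k| * ‖x‖ ≤
      c * ‖h‖ * ‖k‖ := by
  have hxp : 0 < ‖x‖ := norm_pos_iff.2 hx
  have hp2 : (1 : ℝ) < (q : ℝ) + 2 := by
    have : (0 : ℝ) ≤ (q : ℝ) := Nat.cast_nonneg _
    linarith
  have hr : ‖x‖ / ((q : ℝ) + 2) < ‖x‖ := div_lt_self hxp hp2
  have hB : ∀ y : E, ‖x - y‖ ≤ ‖x‖ / ((q : ℝ) + 2) →
      ‖fderiv ℝ (fderiv ℝ N) x - fderiv ℝ (fderiv ℝ N) y‖ ≤ c / ‖x‖ := by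
    intro y hy
    rw [le_div_iff₀ hxp]
    exact hc y hy
  have h1 := tay_fd hC hr hB hle
  have h2 : |(fderiv ℝ N (x + h) - fderiv ℝ N x - fderiv ℝ (fderiv ℝ N) x h) k| ≤
      c / ‖x‖ * ‖h‖ * ‖k‖ := by
    rw [← Real.norm_eq_abs]
    exact (ContinuousLinearMap.le_opNorm _ _).trans
      (mul_le_mul_of_nonneg_right h1 (norm_nonneg _))
  rw [sub_apply, sub_apply] at h2
  calc _ ≤ c / ‖x‖ * ‖h‖ * ‖k‖ * ‖x‖ := mul_le_mul_of_nonneg_right h2 (norm_nonneg _)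
    _ = c * ‖h‖ * ‖k‖ := by
        field_simp

end aux

open Classical in
/-- ROW L1. `C` = the maximum of `K` and of the constant of `exists_bdd_unif K (fun _ => 0) ω`, `p j` from
`exists_cnt_unif K (fun _ => 0) ω` with `ε = 1 / (j + 1)` (`1 / (p j + 2) ≤ η`); both are applied with `E = ↥S`. Then the proof of
`Pool.Agent.H47.SR.exists_est` (file Pool/Agent/H47/SR/D2.lean; copy it) with `N' x = if h : x ∈ S then N ⟨x, h⟩ else 0`. -/
theorem exists_est0 (K : ℝ) (ω : ℝ → ℝ) (hK : 0 < K) (hω : ∀ ε : ℝ, 0 < ε → 0 < ω ε) :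
    ∃ (C : ℝ) (p : ℕ → ℕ), ∀ (S : Submodule ℝ X) (N : S → ℝ), Mod K (fun _ => 0) ω N →
      ∃ (N' : X → ℝ) (D' : X → X → ℝ) (B' : X → X → X → ℝ),
        (∀ (x : X) (hx : x ∈ S), N' x = N ⟨x, hx⟩) ∧ Est0 C p S N' D' B' := by
  classical
  obtain ⟨C₀, hC₀⟩ := exists_bdd_unif.{u} K (fun _ => 0) ω hK hω
  have hj : ∀ j : ℕ, ∃ q : ℕ, ∀ (E : Type u) [NormedAddCommGroup E] [NormedSpace ℝ E] (N : E → ℝ),
      Mod K (fun _ => 0) ω N → ∀ x y : E, x ≠ 0 → ‖x - y‖ ≤ ‖x‖ / ((q : ℝ) + 2) →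
        ‖fderiv ℝ (fderiv ℝ N) x - fderiv ℝ (fderiv ℝ N) y‖ * ‖x‖ ≤ 1 / ((j : ℝ) + 1) := by
    intro j
    obtain ⟨η, hη, hcnt⟩ := exists_cnt_unif.{u} K (fun _ => 0) ω hK hω
      (ε := 1 / ((j : ℝ) + 1)) (by positivity)
    obtain ⟨q, hq⟩ := exists_nat_gt (1 / η)
    refine ⟨q, ?_⟩
    intro E _ _ N hM x y hx hxy
    refine hcnt E N hM x y hx (hxy.trans ?_)
    have hq0 : (0 : ℝ) < (q : ℝ) + 2 := by positivity
    rw [div_le_iff₀ hq0]
    have h1 : 1 ≤ η * ((q : ℝ) + 2) := by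
      have h2 : 1 < (q : ℝ) * η := (div_lt_iff₀ hη).1 hq
      nlinarith
    nlinarith [norm_nonneg x]
  choose p hp using hj
  refine ⟨max K C₀, p, ?_⟩
  intro S N hM
  have hN : EqNorm N := hM.eqNorm hK
  have hC : ContDiffOn ℝ 2 N {x : S | x ≠ 0} := hM.c2
  have hKC : K ≤ max K C₀ := le_max_left _ _
  have hN0 : ∀ x : S, 0 ≤ N x := by
    intro x
    have h1 := (norm_nonneg x).trans (hM.low x)
    exact (mul_nonneg_iff_of_pos_left hK).1 h1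
  let P : X → S := fun x => if h : x ∈ S then ⟨x, h⟩ else 0
  have hP : ∀ x (hx : x ∈ S), P x = ⟨x, hx⟩ := fun x hx => dif_pos hx
  have hPa : ∀ x ∈ S, ∀ y ∈ S, P (x + y) = P x + P y := by
    intro x hx y hy
    rw [hP x hx, hP y hy, hP _ (S.add_mem hx hy)]
    rfl
  have hPs : ∀ (t : ℝ), ∀ x ∈ S, P (t • x) = t • P x := by
    intro t x hx
    rw [hP x hx, hP _ (S.smul_mem t hx)]
    rfl
  have hPb : ∀ x ∈ S, ∀ y ∈ S, P (x - y) = P x - P y := by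
    intro x hx y hy
    rw [hP x hx, hP y hy, hP _ (S.sub_mem hx hy)]
    rfl
  have hPn : ∀ x ∈ S, ‖P x‖ = ‖x‖ := by
    intro x hx
    rw [hP x hx]
    rfl
  have hP0 : ∀ x ∈ S, x ≠ 0 → P x ≠ 0 := by
    intro x hx hx0 h
    apply hx0
    rw [← norm_eq_zero, ← hPn x hx, h, norm_zero]
  refine ⟨fun x => N (P x), fun x h => fderiv ℝ N (P x) (P h),
    fun x h k => fderiv ℝ (fderiv ℝ N) (P x) (P h) (P k), fun x hx => ?_, ?_⟩
  · show N (P x) = N ⟨x, hx⟩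
    rw [hP x hx]
  constructor
  case low =>
    intro x hx
    rw [← hPn x hx]
    exact (hM.low (P x)).trans (mul_le_mul_of_nonneg_right hKC (hN0 _))
  case upp =>
    intro x hx
    rw [← hPn x hx]
    exact (hM.upp (P x)).trans (mul_le_mul_of_nonneg_right hKC (norm_nonneg _))
  case tri =>
    intro x hx y hy
    rw [hPa x hx y hy]
    exact hM.tri _ _
  case hom =>
    intro t x hx
    rw [hPs t x hx]
    exact hM.hom _ _
  case Dadd =>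
    intro x _ _ h hh k hk
    rw [hPa h hh k hk, map_add]
  case Dsmul =>
    intro x _ _ t h hh
    rw [hPs t h hh, map_smul, smul_eq_mul]
  case Dbd =>
    intro x hx hx0 h hh
    rw [← hPn h hh]
    exact ((abs_fderiv_le hN hC (hP0 x hx hx0) (P h)).trans (hM.upp (P h))).trans
      (mul_le_mul_of_nonneg_right hKC (norm_nonneg _))
  case Badd₁ =>
    intro x _ _ h hh h' hh' k _
    rw [hPa h hh h' hh', map_add]
    rfl
  case Bsmul₁ =>
    intro x _ _ t h hh k _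
    rw [hPs t h hh, map_smul]
    rfl
  case Badd₂ =>
    intro x _ _ h _ k hk k' hk'
    rw [hPa k hk k' hk', map_add]
  case Bsmul₂ =>
    intro x _ _ t h _ k hk
    rw [hPs t k hk, map_smul, smul_eq_mul]
  case Bbd =>
    intro x hx hx0 h hh k hk
    rw [← hPn x hx, ← hPn h hh, ← hPn k hk]
    exact d2_key _ _ _ _ _ (norm_nonneg _)
      ((hC₀ S N hM (P x) (hP0 x hx hx0)).trans (le_max_right _ _))
  case sub =>
    intro x hx hx0 h hh
    rw [hPa x hx h hh]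
    exact sub_grad hN hC (hP0 x hx hx0) (P h)
  case tay =>
    intro j x hx hx0 h hh k hk hle
    rw [hPa x hx h hh]
    rw [← hPn x hx, ← hPn h hh] at hle
    rw [← hPn x hx, ← hPn h hh, ← hPn k hk]
    refine (l1_tay hC (hP0 x hx hx0) (fun y hy => hp j S N hM (P x) y (hP0 x hx hx0) hy)
      (P h) (P k) hle).trans (le_of_eq ?_)
    ring
  case cnt =>
    intro j x hx hx0 y hy h hh k hk hle
    rw [← hPn x hx, ← hPn _ (S.sub_mem hx hy), hPb x hx y hy] at hle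
    rw [← hPn x hx, ← hPn h hh, ← hPn k hk]
    refine (l1_cnt (P h) (P k) (hp j S N hM (P x) (P y) (hP0 x hx hx0) hle)).trans (le_of_eq ?_)
    ring

end Pool.Agent.H47.SS
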