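import Pool.Agent.H47.SS.Sd

/-!
# S1: the third power of a norm
-/

set_option autoImplicit false

open Filter Topology

namespace Pool.Agent.H47.SS

open Pool.Agent.H47.SR

variable {X : Type*} [NormedAddCommGroup X] [NormedSpace ℝ X]

/-- The first derivative of `N ^ 3`. -/
noncomputable def D3 (N : X → ℝ) (x : X) : X →L[ℝ] ℝ := (3 * N x ^ 2) • fderiv ℝ N x

/-- The second derivative of `N ^ 3`. -/
noncomputable def B3 (N : X → ℝ) (x : X) : X →L[ℝ] X →L[ℝ] ℝ :=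
  (6 * N x) • (fderiv ℝ N x).smulRight (fderiv ℝ N x) +
    (3 * N x ^ 2) • fderiv ℝ (fderiv ℝ N) x

theorem s1_N0 {N : X → ℝ} (hN : EqNorm N) : N 0 = 0 := by
  have h := hN.2.2 0 0
  rw [zero_smul, abs_zero, zero_mul] at h
  exact h

theorem s1_D30 {N : X → ℝ} (hN : EqNorm N) : D3 N 0 = 0 := by
  unfold D3
  rw [s1_N0 hN]
  simp

theorem s1_zero_smul_add {G : Type*} [NormedAddCommGroup G] [NormedSpace ℝ G] (a b : ℝ) (ha : a = 0) (hb : b = 0)
    (A B : G) : a • A + b • B = 0 := by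
  rw [ha, hb, zero_smul, zero_smul, add_zero]

theorem s1_B30 {N : X → ℝ} (hN : EqNorm N) : B3 N 0 = 0 := by
  unfold B3
  exact s1_zero_smul_add (G := X →L[ℝ] X →L[ℝ] ℝ) _ _ (by rw [s1_N0 hN]; ring) (by rw [s1_N0 hN]; ring) _ _

/-- ROW S1a. For `x ≠ 0`: `hasFDerivAt_of` and `HasFDerivAt.pow`; at 0 : `|N x ^ 3| ≤ C³ ‖x‖³` and `D3 N 0 = 0` as `N 0 = 0`. -/
theorem hasFDerivAt_N3 {N : X → ℝ} (hN : EqNorm N) (hU : UnifC2 N) (x : X) :
    HasFDerivAt (fun y => N y ^ 3) (D3 N x) x := by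
  by_cases hx : x = 0
  · subst hx
    rw [s1_D30 hN]
    obtain ⟨⟨c, C, hc, hC, hb⟩, -, -⟩ := hN
    refine Asymptotics.IsBigO.hasFDerivAt (n := 3) ?_ (by norm_num)
    refine Asymptotics.IsBigO.of_bound (C ^ 3) (Eventually.of_forall fun y => ?_)
    have h0 : 0 ≤ N y := le_trans (mul_nonneg hc.le (norm_nonneg y)) (hb y).1
    rw [sub_zero, Real.norm_of_nonneg (pow_nonneg h0 3), norm_pow, norm_norm, ← mul_pow]
    exact pow_le_pow_left₀ h0 (hb y).2 3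
  · have h := (hasFDerivAt_of hU.1 hx).1.pow 3
    refine h.congr_fderiv ?_
    unfold D3
    simp [nsmul_eq_mul]

theorem s1_norm_fderiv_le {N : X → ℝ} (hN : EqNorm N) (hU : UnifC2 N) {C : ℝ} (hC : 0 ≤ C)
    (hb : ∀ x, N x ≤ C * ‖x‖) {x : X} (hx : x ≠ 0) : ‖fderiv ℝ N x‖ ≤ C := by
  refine ContinuousLinearMap.opNorm_le_bound _ hC fun h => ?_
  rw [Real.norm_eq_abs]
  exact (abs_fderiv_le hN hU.1 hx h).trans (hb h)

theorem s1_gen {G : Type*} [NormedAddCommGroup G] [NormedSpace ℝ G] {a b α β : ℝ} (ha : 0 ≤ a) (hb : 0 ≤ b)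
    {A B : G} (hA : ‖A‖ ≤ α) (hB : ‖B‖ ≤ β) : ‖a • A + b • B‖ ≤ a * α + b * β := by
  refine (norm_add_le _ _).trans ?_
  rw [norm_smul, norm_smul, Real.norm_of_nonneg ha, Real.norm_of_nonneg hb]
  exact add_le_add (mul_le_mul_of_nonneg_left hA ha) (mul_le_mul_of_nonneg_left hB hb)

/-- ROW S1b. The bounds, from `abs_fderiv_le` (so `‖fderiv ℝ N x‖ ≤ C`) and `exists_bdd`. -/
theorem exists_bounds {N : X → ℝ} (hN : EqNorm N) (hU : UnifC2 N) :
    ∃ C : ℝ, 0 ≤ C ∧ (∀ x, |N x ^ 3| ≤ C * ‖x‖ ^ 3) ∧ (∀ x, ‖D3 N x‖ ≤ C * ‖x‖ ^ 2) ∧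
      ∀ x, ‖B3 N x‖ ≤ C * ‖x‖ := by
  obtain ⟨⟨c, C, hc, hC, hb⟩, -, -⟩ := id hN
  obtain ⟨K, hK⟩ := exists_bdd hN hU
  have hf : ∀ {x : X}, x ≠ 0 → ‖fderiv ℝ N x‖ ≤ C := fun hx =>
    s1_norm_fderiv_le hN hU hC.le (fun x => (hb x).2) hx
  have hn0 : ∀ y, 0 ≤ N y := fun y => le_trans (mul_nonneg hc.le (norm_nonneg y)) (hb y).1
  have hC3 : 0 ≤ C ^ 3 := by positivity
  have hKa : 0 ≤ C ^ 2 * |K| := by positivity
  refine ⟨6 * C ^ 3 + 3 * (C ^ 2 * |K|), by positivity, fun x => ?_, fun x => ?_, fun x => ?_⟩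
  · rw [abs_of_nonneg (pow_nonneg (hn0 x) 3)]
    have h1 : N x ^ 3 ≤ (C * ‖x‖) ^ 3 := pow_le_pow_left₀ (hn0 x) (hb x).2 3
    have h2 : 0 ≤ ‖x‖ ^ 3 := by positivity
    have h3 : (C * ‖x‖) ^ 3 = C ^ 3 * ‖x‖ ^ 3 := by ring
    nlinarith
  · by_cases hx : x = 0
    · subst hx
      rw [s1_D30 hN, norm_zero]
      simp
    · unfold D3
      rw [norm_smul, Real.norm_of_nonneg (by positivity)]
      have h1 : N x ^ 2 ≤ (C * ‖x‖) ^ 2 := pow_le_pow_left₀ (hn0 x) (hb x).2 2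
      have h2 : 0 ≤ ‖x‖ ^ 2 := by positivity
      calc 3 * N x ^ 2 * ‖fderiv ℝ N x‖ ≤ 3 * (C * ‖x‖) ^ 2 * C := by
            apply mul_le_mul _ (hf hx) (norm_nonneg _) (by positivity)
            linarith
        _ = 3 * C ^ 3 * ‖x‖ ^ 2 := by ring
        _ ≤ (6 * C ^ 3 + 3 * (C ^ 2 * |K|)) * ‖x‖ ^ 2 := by
            apply mul_le_mul_of_nonneg_right _ h2
            linarith
  · by_cases hx : x = 0
    · subst hx
      rw [s1_B30 hN, norm_zero, mul_zero]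
      exact (norm_zero (E := X →L[ℝ] X →L[ℝ] ℝ)).le
    · have hx0 : 0 < ‖x‖ := norm_pos_iff.2 hx
      have h1 : ‖(fderiv ℝ N x).smulRight (fderiv ℝ N x)‖ ≤ C * C := by
        rw [ContinuousLinearMap.norm_smulRight_apply]
        exact mul_le_mul (hf hx) (hf hx) (norm_nonneg _) hC.le
      have h2 : ‖fderiv ℝ (fderiv ℝ N) x‖ ≤ |K| / ‖x‖ := by
        rw [le_div_iff₀ hx0]
        exact (hK x hx).trans (le_abs_self K)
      have h3 := s1_gen (G := X →L[ℝ] X →L[ℝ] ℝ) (a := 6 * N x) (b := 3 * N x ^ 2) (mul_nonneg (by norm_num) (hn0 x))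
        (by positivity) h1 h2
      refine h3.trans ?_
      have h4 : 6 * N x * (C * C) ≤ 6 * C ^ 3 * ‖x‖ := by
        have h5 := (hb x).2
        have h6 : 0 ≤ C * C := by positivity
        nlinarith [mul_le_mul_of_nonneg_right h5 h6]
      have h7 : 3 * N x ^ 2 * (|K| / ‖x‖) ≤ 3 * (C ^ 2 * |K|) * ‖x‖ := by
        have h8 : N x ^ 2 ≤ (C * ‖x‖) ^ 2 := pow_le_pow_left₀ (hn0 x) (hb x).2 2
        have h9 : 0 ≤ |K| / ‖x‖ := by positivity
        calc 3 * N x ^ 2 * (|K| / ‖x‖) ≤ 3 * (C * ‖x‖) ^ 2 * (|K| / ‖x‖) :=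
              mul_le_mul_of_nonneg_right (by linarith) h9
          _ = 3 * (C ^ 2 * |K|) * ‖x‖ := by
              field_simp
      linarith

theorem s1_alg (a b p q r : ℝ) : a * (p * q) + b * r = b * r + a * p * q := by ring

/-- ROW S1c. For `x ≠ 0`: `hasFDerivAt_of` and the product rule (`HasFDerivAt.smul` for the scalar function `3 * N x ^ 2`, whose
derivative is `(6 * N x) • fderiv ℝ N x`); at 0: `‖D3 N x‖ ≤ C ‖x‖²` (`exists_bounds`), `D3 N 0 = 0`, `B3 N 0 = 0`. -/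
theorem hasFDerivAt_D3 {N : X → ℝ} (hN : EqNorm N) (hU : UnifC2 N) (x : X) :
    HasFDerivAt (D3 N) (B3 N x) x := by
  by_cases hx : x = 0
  · subst hx
    obtain ⟨C, hC, -, h2, -⟩ := exists_bounds hN hU
    rw [s1_B30 hN]
    refine Asymptotics.IsBigO.hasFDerivAt (n := 2) ?_ (by norm_num)
    refine Asymptotics.IsBigO.of_bound C (Eventually.of_forall fun y => ?_)
    rw [sub_zero, norm_pow, norm_norm]
    exact h2 y
  · obtain ⟨h1, h2⟩ := hasFDerivAt_of hU.1 hx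
    have h3 : HasFDerivAt (fun y => 3 * N y ^ 2) ((6 * N x) • fderiv ℝ N x) x := by
      have h := (h1.pow 2).const_mul 3
      refine h.congr_fderiv ?_
      ext v
      simp
      ring
    have h4 := h3.smul h2
    have h5 : B3 N x = (3 * N x ^ 2) • fderiv ℝ (fderiv ℝ N) x + ((6 * N x) • fderiv ℝ N x).smulRight (fderiv ℝ N x) := by
      unfold B3
      ext v w
      simp
      exact s1_alg _ _ _ _ _
    rw [h5]
    exact h4

end Pool.Agent.H47.SS
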