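import Pool.Agent.H47.SS.Sd

/-!
# S3: sums
-/

set_option autoImplicit false

open Filter Topology

namespace Pool.Agent.H47.SS

open Pool.Agent.H47.SR

variable {X : Type*} [NormedAddCommGroup X] [NormedSpace ℝ X]

theorem tsum_gen {F : Type*} [NormedAddCommGroup F] [NormedSpace ℝ F] [CompleteSpace F]
    (g : ℕ → X → F) (g' : ℕ → X → X →L[ℝ] F) (C c : ℕ → ℝ) (r : ℕ)
    (h1 : ∀ n y, HasFDerivAt (g n) (g' n y) y) (h0 : ∀ n, g n 0 = 0)
    (hb : ∀ n y, ‖g' n y‖ ≤ C n * ‖y‖ ^ r) (hc : ∀ n, 0 < c n)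
    (hs : ∀ n, c n * C n ≤ (1 / 2) ^ n) (x : X) :
    HasFDerivAt (fun y => ∑' n, c n • g n y) (∑' n, c n • g' n x) x := by
  have hu : Summable (fun n : ℕ => ((1 : ℝ) / 2) ^ n * (‖x‖ + 1) ^ r) :=
    (summable_geometric_of_lt_one (by norm_num) (by norm_num)).mul_right _
  have hx0 : (0 : X) ∈ Metric.ball (0 : X) (‖x‖ + 1) := by
    rw [mem_ball_zero_iff, norm_zero]
    positivity
  have hx : x ∈ Metric.ball (0 : X) (‖x‖ + 1) := by
    rw [mem_ball_zero_iff]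
    linarith
  have hsum : Summable fun n => c n • g n 0 := by
    have : (fun n => c n • g n 0) = fun _ => (0 : F) := by
      funext n
      rw [h0 n, smul_zero]
    rw [this]
    exact summable_zero
  refine hasFDerivAt_tsum_of_isPreconnected (f := fun n y => c n • g n y)
    (f' := fun n y => c n • g' n y) hu Metric.isOpen_ball
    (convex_ball (0 : X) (‖x‖ + 1)).isPreconnected ?_ ?_ hx0 hsum hx
  · intro n y _
    exact (h1 n y).const_smul (c n)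
  · intro n y hy
    rw [mem_ball_zero_iff] at hy
    have e : ‖c n • g' n y‖ = c n * ‖g' n y‖ := by
      rw [norm_smul, Real.norm_of_nonneg (hc n).le]
    rw [e]
    calc c n * ‖g' n y‖ ≤ c n * (C n * ‖y‖ ^ r) := mul_le_mul_of_nonneg_left (hb n y) (hc n).le
      _ = (c n * C n) * ‖y‖ ^ r := by ring
      _ ≤ (1 / 2) ^ n * ‖y‖ ^ r := mul_le_mul_of_nonneg_right (hs n) (by positivity)
      _ ≤ (1 / 2) ^ n * (‖x‖ + 1) ^ r := by
        refine mul_le_mul_of_nonneg_left ?_ (by positivity)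
        exact pow_le_pow_left₀ (norm_nonneg y) hy.le r

/-- ROW S3a. `hasFDerivAt_tsum_of_isPreconnected` on the ball of radius `‖x‖ + 1` around 0 (convex), with the bounds
`‖c n • D n y‖ ≤ (1/2)^n (‖x‖ + 1)^2`. -/
theorem tsum_d1 (f : ℕ → X → ℝ) (D : ℕ → X → X →L[ℝ] ℝ) (B : ℕ → X → X →L[ℝ] X →L[ℝ] ℝ)
    (C c : ℕ → ℝ) (h : ∀ n, Tw (f n) (D n) (B n) (C n)) (hc : ∀ n, 0 < c n)
    (hs : ∀ n, c n * C n ≤ (1 / 2) ^ n) (x : X) :
    HasFDerivAt (fun y => ∑' n, c n * f n y) (∑' n, c n • D n x) x := by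
  have h0 : ∀ n, f n 0 = 0 := fun n => by
    have := (h n).bf 0
    rw [norm_zero] at this
    have h2 : |f n 0| ≤ 0 := by simpa using this
    exact abs_nonpos_iff.mp h2
  exact tsum_gen f D C c 2 (fun n => (h n).d1) h0 (fun n => (h n).bD) hc hs x

/-- ROW S3b. The same. -/
theorem tsum_d2 (f : ℕ → X → ℝ) (D : ℕ → X → X →L[ℝ] ℝ) (B : ℕ → X → X →L[ℝ] X →L[ℝ] ℝ)
    (C c : ℕ → ℝ) (h : ∀ n, Tw (f n) (D n) (B n) (C n)) (hc : ∀ n, 0 < c n)
    (hs : ∀ n, c n * C n ≤ (1 / 2) ^ n) (x : X) :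
    HasFDerivAt (fun y => ∑' n, c n • D n y) (∑' n, c n • B n x) x := by
  have h0 : ∀ n, D n 0 = 0 := fun n => by
    have h1 := (h n).bD 0
    rw [norm_zero] at h1
    have h2 : ‖D n 0‖ ≤ 0 := le_trans h1 (le_of_eq (by ring))
    exact norm_le_zero_iff.mp h2
  have hb : ∀ n y, ‖B n y‖ ≤ C n * ‖y‖ ^ 1 := fun n y => by
    rw [pow_one]
    exact (h n).bB y
  exact tsum_gen D B C c 1 (fun n => (h n).d2) h0 hb hc hs x

end Pool.Agent.H47.SS
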