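import Pool.Agent.H47.SS.S3

/-!
# S4: sums, continued
-/

set_option autoImplicit false

open Filter Topology

namespace Pool.Agent.H47.SS

open Pool.Agent.H47.SR

variable {X : Type*} [NormedAddCommGroup X] [NormedSpace ℝ X]

/-- ROW S4a. Bounds for a sum in a complete normed space `G`: `∑ (1/2)^n = 2`. -/
theorem tsum_bound {G : Type*} [NormedAddCommGroup G] [CompleteSpace G] (g : ℕ → G) (r : ℝ)
    (hr : 0 ≤ r) (h : ∀ n, ‖g n‖ ≤ (1 / 2) ^ n * r) : Summable g ∧ ‖∑' n, g n‖ ≤ 2 * r := by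
  have hs : Summable fun n : ℕ => (1 / 2 : ℝ) ^ n * r := summable_geometric_two.mul_right r
  have hn : Summable fun n => ‖g n‖ := Summable.of_nonneg_of_le (fun n => norm_nonneg _) h hs
  refine ⟨hn.of_norm, ?_⟩
  refine (norm_tsum_le_tsum_norm hn).trans ?_
  refine (hn.tsum_le_tsum h hs).trans ?_
  rw [tsum_mul_right, tsum_geometric_two]

/-- ROW S4b. Uniform continuity of a sum: for `x, y` in the ball of radius `R` the tail `∑_{n ≥ M} ‖c n • (B n x - B n y)‖ ≤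
∑_{n ≥ M} 2 (1/2)^n R` is `≤ ε / 2` for large `M`, and the finitely many other terms are uniformly continuous (induction on `M`). -/
theorem tsum_uc {G : Type*} [NormedAddCommGroup G] [NormedSpace ℝ G] [CompleteSpace G]
    (B : ℕ → X → G) (hB : ∀ n x, ‖B n x‖ ≤ (1 / 2) ^ n * ‖x‖)
    (hu : ∀ (n : ℕ) (R ε : ℝ), 0 < ε → ∃ δ : ℝ, 0 < δ ∧ ∀ x y : X, ‖x‖ ≤ R → ‖y‖ ≤ R →
      ‖x - y‖ ≤ δ → ‖B n x - B n y‖ ≤ ε) (R ε : ℝ) (hε : 0 < ε) :
    ∃ δ : ℝ, 0 < δ ∧ ∀ x y : X, ‖x‖ ≤ R → ‖y‖ ≤ R → ‖x - y‖ ≤ δ →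
      ‖(∑' n, B n x) - ∑' n, B n y‖ ≤ ε := by
  have hfin : ∀ (M : ℕ) (η : ℝ), 0 < η → ∃ δ : ℝ, 0 < δ ∧ ∀ n < M, ∀ x y : X, ‖x‖ ≤ R → ‖y‖ ≤ R →
      ‖x - y‖ ≤ δ → ‖B n x - B n y‖ ≤ η := by
    intro M η hη
    induction M with
    | zero => exact ⟨1, one_pos, fun n hn => absurd hn (Nat.not_lt_zero n)⟩
    | succ M ih =>
      obtain ⟨δ₁, h₁, h₁'⟩ := ih
      obtain ⟨δ₂, h₂, h₂'⟩ := hu M R η hη
      refine ⟨min δ₁ δ₂, lt_min h₁ h₂, fun n hn x y hx hy hxy => ?_⟩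
      rcases Nat.lt_succ_iff_lt_or_eq.1 hn with h3 | h3
      · exact h₁' n h3 x y hx hy (hxy.trans (min_le_left _ _))
      · rw [h3]
        exact h₂' x y hx hy (hxy.trans (min_le_right _ _))
  obtain ⟨M, hM⟩ : ∃ M : ℕ, (1 / 2 : ℝ) ^ M * (4 * |R| + 1) ≤ ε / 2 := by
    obtain ⟨M, hM⟩ := exists_pow_lt_of_lt_one (show 0 < ε / 2 / (4 * |R| + 1) by positivity)
      (show (1 / 2 : ℝ) < 1 by norm_num)
    refine ⟨M, ?_⟩
    rw [lt_div_iff₀ (by positivity)] at hM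
    exact hM.le
  obtain ⟨δ, hδ, hδ'⟩ := hfin M (ε / 2 / ((M : ℝ) + 1)) (by positivity)
  refine ⟨δ, hδ, fun x y hx hy hxy => ?_⟩
  have hR : R ≤ |R| := le_abs_self R
  have hsx := (tsum_bound (fun n => B n x) ‖x‖ (norm_nonneg x) (fun n => hB n x)).1
  have hsy := (tsum_bound (fun n => B n y) ‖y‖ (norm_nonneg y) (fun n => hB n y)).1
  obtain ⟨g, hg⟩ : ∃ g : ℕ → G, ∀ n, g n = B n x - B n y := ⟨_, fun n => rfl⟩
  have hgs : Summable g := by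
    refine (hsx.sub hsy).congr fun n => ?_
    rw [hg]
  have e1 : (∑' n, B n x) - ∑' n, B n y = ∑' n, g n := by
    rw [← hsx.tsum_sub hsy]
    exact tsum_congr fun n => (hg n).symm
  rw [e1, ← hgs.sum_add_tsum_nat_add M]
  have hgn : ∀ n, ‖g n‖ ≤ (1 / 2) ^ n * (2 * |R|) := by
    intro n
    rw [hg]
    refine (norm_sub_le _ _).trans ?_
    have h1 := hB n x
    have h2 := hB n y
    have h3 : (1 / 2 : ℝ) ^ n * ‖x‖ ≤ (1 / 2) ^ n * |R| :=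
      mul_le_mul_of_nonneg_left (hx.trans hR) (by positivity)
    have h4 : (1 / 2 : ℝ) ^ n * ‖y‖ ≤ (1 / 2) ^ n * |R| :=
      mul_le_mul_of_nonneg_left (hy.trans hR) (by positivity)
    calc ‖B n x‖ + ‖B n y‖ ≤ (1 / 2) ^ n * |R| + (1 / 2) ^ n * |R| :=
          add_le_add (h1.trans h3) (h2.trans h4)
      _ = (1 / 2) ^ n * (2 * |R|) := by ring
  have ht : ‖∑' n, g (n + M)‖ ≤ 2 * ((1 / 2) ^ M * (2 * |R|)) := by
    refine (tsum_bound (fun n => g (n + M)) ((1 / 2) ^ M * (2 * |R|)) (by positivity) fun n => ?_).2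
    refine (hgn (n + M)).trans (le_of_eq ?_)
    rw [pow_add]
    ring
  have hf : ‖∑ n ∈ Finset.range M, g n‖ ≤ ε / 2 := by
    refine (norm_sum_le _ _).trans ?_
    have h5 : ∀ n ∈ Finset.range M, ‖g n‖ ≤ ε / 2 / ((M : ℝ) + 1) := by
      intro n hn
      rw [hg]
      exact hδ' n (Finset.mem_range.1 hn) x y hx hy hxy
    refine (Finset.sum_le_sum h5).trans ?_
    rw [Finset.sum_const, Finset.card_range, nsmul_eq_mul, mul_div_assoc', div_le_iff₀ (by positivity)]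
    have : 0 ≤ ε / 2 := by positivity
    nlinarith
  refine (norm_add_le _ _).trans ?_
  have h6 : 2 * ((1 / 2 : ℝ) ^ M * (2 * |R|)) ≤ ε / 2 := by
    have h7 : (0 : ℝ) ≤ (1 / 2) ^ M := by positivity
    nlinarith
  linarith

end Pool.Agent.H47.SS
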