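import Pool.Agent.H47.SS.Sd

/-!
# S7: the norm `(∑ c_n N_n ^ 3) ^ (1/3)`
-/

set_option autoImplicit false

open Filter Topology

namespace Pool.Agent.H47.SS

open Pool.Agent.H47.SR

variable {X : Type*} [NormedAddCommGroup X] [NormedSpace ℝ X]

theorem s7_nonneg {K : ℝ} (hK : 0 < K) (N : ℕ → X → ℝ)
    (hlow : ∀ n x, ‖x‖ ≤ K * N n x) (n : ℕ) (x : X) : 0 ≤ N n x := by
  have h1 := hlow n x
  have h2 := norm_nonneg x
  by_contra h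
  push Not at h
  have : K * N n x < 0 := mul_neg_of_pos_of_neg hK h
  linarith

theorem s7_term {K : ℝ} (hK : 0 < K) (N : ℕ → X → ℝ)
    (hlow : ∀ n x, ‖x‖ ≤ K * N n x) (hupp : ∀ n x, N n x ≤ K * ‖x‖) (c : ℕ → ℝ)
    (hs : ∀ n, c n ≤ (1 / 2) ^ n) (x : X) (n : ℕ) :
    c n * N n x ^ 3 ≤ (1 / 2) ^ n * (K * ‖x‖) ^ 3 := by
  have h0 := s7_nonneg hK N hlow n x
  have h1 : N n x ^ 3 ≤ (K * ‖x‖) ^ 3 := pow_le_pow_left₀ h0 (hupp n x) 3
  exact mul_le_mul (hs n) h1 (pow_nonneg h0 3) (by positivity)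

theorem s7_summable {K : ℝ} (hK : 0 < K) (N : ℕ → X → ℝ)
    (hlow : ∀ n x, ‖x‖ ≤ K * N n x) (hupp : ∀ n x, N n x ≤ K * ‖x‖) (c : ℕ → ℝ)
    (hc : ∀ n, 0 < c n) (hs : ∀ n, c n ≤ (1 / 2) ^ n) (x : X) :
    Summable fun n => c n * N n x ^ 3 := by
  refine Summable.of_nonneg_of_le (fun n => ?_) (s7_term hK N hlow hupp c hs x)
    (Summable.mul_right _ (summable_geometric_of_lt_one (by norm_num) (by norm_num)))
  exact mul_nonneg (hc n).le (pow_nonneg (s7_nonneg hK N hlow n x) 3)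

/-- ROW S7b. -/
theorem sum_low {K : ℝ} (hK : 0 < K) (N : ℕ → X → ℝ)
    (hlow : ∀ n x, ‖x‖ ≤ K * N n x) (hupp : ∀ n x, N n x ≤ K * ‖x‖) (c : ℕ → ℝ)
    (hc : ∀ n, 0 < c n) (hs : ∀ n, c n ≤ (1 / 2) ^ n) (x : X) :
    (c 0 / K ^ 3) * ‖x‖ ^ 3 ≤ ∑' n, c n * N n x ^ 3 := by
  have hS := s7_summable hK N hlow hupp c hc hs x
  have h1 : c 0 * N 0 x ^ 3 ≤ ∑' n, c n * N n x ^ 3 :=
    hS.le_tsum 0 (fun n _ => mul_nonneg (hc n).le (pow_nonneg (s7_nonneg hK N hlow n x) 3))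
  have h2 : ‖x‖ ^ 3 ≤ (K * N 0 x) ^ 3 := pow_le_pow_left₀ (norm_nonneg x) (hlow 0 x) 3
  have h3 : (c 0 / K ^ 3) * ‖x‖ ^ 3 ≤ (c 0 / K ^ 3) * (K * N 0 x) ^ 3 :=
    mul_le_mul_of_nonneg_left h2 (div_nonneg (hc 0).le (by positivity))
  have h4 : (c 0 / K ^ 3) * (K * N 0 x) ^ 3 = c 0 * N 0 x ^ 3 := by
    field_simp
  linarith

theorem s7_upp {K : ℝ} (hK : 0 < K) (N : ℕ → X → ℝ)
    (hlow : ∀ n x, ‖x‖ ≤ K * N n x) (hupp : ∀ n x, N n x ≤ K * ‖x‖) (c : ℕ → ℝ)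
    (hc : ∀ n, 0 < c n) (hs : ∀ n, c n ≤ (1 / 2) ^ n) (x : X) :
    ∑' n, c n * N n x ^ 3 ≤ 2 * (K * ‖x‖) ^ 3 := by
  have hS := s7_summable hK N hlow hupp c hc hs x
  have hg : Summable fun n : ℕ => (1 / 2 : ℝ) ^ n :=
    summable_geometric_of_lt_one (by norm_num) (by norm_num)
  have h1 : ∑' n, c n * N n x ^ 3 ≤ ∑' n : ℕ, (1 / 2 : ℝ) ^ n * (K * ‖x‖) ^ 3 :=
    hS.tsum_le_tsum (s7_term hK N hlow hupp c hs x) (hg.mul_right _)
  rw [tsum_mul_right, tsum_geometric_two] at h1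
  exact h1

theorem s7_cube_root {a : ℝ} (ha : 0 ≤ a) : (a ^ 3) ^ (1 / 3 : ℝ) = a := by
  rw [← Real.rpow_natCast, ← Real.rpow_mul ha]
  norm_num

theorem s7_f {a b : ℝ} (ha : 0 ≤ a) (hb : 0 ≤ b) : (a ^ (1 / 3 : ℝ) * b) ^ (3 : ℝ) = a * b ^ 3 := by
  rw [Real.mul_rpow (by positivity) hb, ← Real.rpow_mul ha]
  norm_num

/-- ROW S7a. Minkowski's inequality `Real.Lp_add_le_tsum_of_nonneg` with `p = 3` for `c_n^(1/3) N_n x`; bounds from the term `n = 0` below and the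
sum above. (`K ≥ 0` if `X` is not trivial.) -/
theorem eqNorm_sum {K : ℝ} (hK : 0 < K) (N : ℕ → X → ℝ) (hE : ∀ n, EqNorm (N n))
    (hlow : ∀ n x, ‖x‖ ≤ K * N n x) (hupp : ∀ n x, N n x ≤ K * ‖x‖) (c : ℕ → ℝ)
    (hc : ∀ n, 0 < c n) (hs : ∀ n, c n ≤ (1 / 2) ^ n) :
    EqNorm (fun x => (∑' n, c n * N n x ^ 3) ^ (1 / 3 : ℝ)) := by
  have hN0 : ∀ n x, 0 ≤ N n x := s7_nonneg hK N hlow
  have hT0 : ∀ x, 0 ≤ ∑' n, c n * N n x ^ 3 := fun x =>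
    tsum_nonneg fun n => mul_nonneg (hc n).le (pow_nonneg (hN0 n x) 3)
  refine ⟨⟨(c 0) ^ (1 / 3 : ℝ) / K, 2 ^ (1 / 3 : ℝ) * K,
    div_pos (Real.rpow_pos_of_pos (hc 0) _) hK, by positivity, fun x => ⟨?_, ?_⟩⟩, ?_, ?_⟩
  · have h1 := sum_low hK N hlow hupp c hc hs x
    have h2 : ((c 0 / K ^ 3) * ‖x‖ ^ 3) ^ (1 / 3 : ℝ) ≤
        (∑' n, c n * N n x ^ 3) ^ (1 / 3 : ℝ) :=
      Real.rpow_le_rpow (mul_nonneg (div_nonneg (hc 0).le (by positivity)) (by positivity)) h1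
        (by norm_num)
    have h3 : ((c 0 / K ^ 3) * ‖x‖ ^ 3) ^ (1 / 3 : ℝ) = (c 0) ^ (1 / 3 : ℝ) / K * ‖x‖ := by
      rw [Real.mul_rpow (div_nonneg (hc 0).le (by positivity)) (by positivity),
        s7_cube_root (norm_nonneg x), Real.div_rpow (hc 0).le (by positivity),
        s7_cube_root hK.le]
    simpa only [h3] using h2
  · have h1 := s7_upp hK N hlow hupp c hc hs x
    have h2 : (∑' n, c n * N n x ^ 3) ^ (1 / 3 : ℝ) ≤ (2 * (K * ‖x‖) ^ 3) ^ (1 / 3 : ℝ) :=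
      Real.rpow_le_rpow (hT0 x) h1 (by norm_num)
    have h3 : (2 * (K * ‖x‖) ^ 3) ^ (1 / 3 : ℝ) = 2 ^ (1 / 3 : ℝ) * K * ‖x‖ := by
      rw [Real.mul_rpow (by norm_num) (by positivity), s7_cube_root (by positivity)]
      ring
    simpa only [h3] using h2
  · intro x y
    have hM := Real.Lp_add_le_tsum_of_nonneg (p := 3) (f := fun n => (c n) ^ (1 / 3 : ℝ) * N n x)
      (g := fun n => (c n) ^ (1 / 3 : ℝ) * N n y) (by norm_num)
      (fun n => mul_nonneg (Real.rpow_nonneg (hc n).le _) (hN0 n x))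
      (fun n => mul_nonneg (Real.rpow_nonneg (hc n).le _) (hN0 n y))
      (by
        simp only [fun n => s7_f (hc n).le (hN0 n x)]
        exact s7_summable hK N hlow hupp c hc hs x)
      (by
        simp only [fun n => s7_f (hc n).le (hN0 n y)]
        exact s7_summable hK N hlow hupp c hc hs y)
    simp only [fun n => s7_f (hc n).le (hN0 n x), fun n => s7_f (hc n).le (hN0 n y)] at hM
    obtain ⟨hM1, hM2⟩ := hM
    refine le_trans ?_ hM2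
    refine Real.rpow_le_rpow (hT0 _) ?_ (by norm_num)
    refine (s7_summable hK N hlow hupp c hc hs (x + y)).tsum_le_tsum (fun n => ?_) hM1
    rw [← mul_add, s7_f (hc n).le (add_nonneg (hN0 n x) (hN0 n y))]
    exact mul_le_mul_of_nonneg_left
      (pow_le_pow_left₀ (hN0 n _) ((hE n).2.1 x y) 3) (hc n).le
  · intro t x
    have h1 : ∀ n, c n * N n (t • x) ^ 3 = |t| ^ 3 * (c n * N n x ^ 3) := by
      intro n
      rw [(hE n).2.2 t x]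
      ring
    simp only [h1]
    rw [tsum_mul_left, Real.mul_rpow (by positivity) (hT0 x), s7_cube_root (abs_nonneg t)]

end Pool.Agent.H47.SS
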