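import Pool.Agent.H47.SR.A3

/-!
# SS: norms whose moduli of convexity are obtained one scale at a time: definitions
-/

set_option autoImplicit false

namespace Pool.Agent.H47.SS

open Pool.Agent.H47.SR

variable {X : Type*} [NormedAddCommGroup X] [NormedSpace ℝ X]

/-- `f` is twice differentiable with the derivatives `D`, `B`; `B` is bounded by `C ‖x‖` and
uniformly continuous on bounded sets. -/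
structure Tw (f : X → ℝ) (D : X → X →L[ℝ] ℝ) (B : X → X →L[ℝ] X →L[ℝ] ℝ) (C : ℝ) : Prop where
  d1 : ∀ x, HasFDerivAt f (D x) x
  d2 : ∀ x, HasFDerivAt D (B x) x
  bf : ∀ x, |f x| ≤ C * ‖x‖ ^ 3
  bD : ∀ x, ‖D x‖ ≤ C * ‖x‖ ^ 2
  bB : ∀ x, ‖B x‖ ≤ C * ‖x‖
  uc : ∀ R ε : ℝ, 0 < ε → ∃ δ : ℝ, 0 < δ ∧ ∀ x y : X, ‖x‖ ≤ R → ‖y‖ ≤ R → ‖x - y‖ ≤ δ →
    ‖B x - B y‖ ≤ ε

/-- Estimates for a norm `N`, its first derivative `D` and its second derivative `B` on the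
subspace `S` (no uniform convexity). -/
structure Est0 (C : ℝ) (p : ℕ → ℕ) (S : Submodule ℝ X) (N : X → ℝ) (D : X → X → ℝ)
    (B : X → X → X → ℝ) : Prop where
  low : ∀ x ∈ S, ‖x‖ ≤ C * N x
  upp : ∀ x ∈ S, N x ≤ C * ‖x‖
  tri : ∀ x ∈ S, ∀ y ∈ S, N (x + y) ≤ N x + N y
  hom : ∀ (t : ℝ), ∀ x ∈ S, N (t • x) = |t| * N x
  Dadd : ∀ x ∈ S, x ≠ 0 → ∀ h ∈ S, ∀ k ∈ S, D x (h + k) = D x h + D x k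
  Dsmul : ∀ x ∈ S, x ≠ 0 → ∀ (t : ℝ), ∀ h ∈ S, D x (t • h) = t * D x h
  Dbd : ∀ x ∈ S, x ≠ 0 → ∀ h ∈ S, |D x h| ≤ C * ‖h‖
  Badd₁ : ∀ x ∈ S, x ≠ 0 → ∀ h ∈ S, ∀ h' ∈ S, ∀ k ∈ S, B x (h + h') k = B x h k + B x h' k
  Bsmul₁ : ∀ x ∈ S, x ≠ 0 → ∀ (t : ℝ), ∀ h ∈ S, ∀ k ∈ S, B x (t • h) k = t * B x h k
  Badd₂ : ∀ x ∈ S, x ≠ 0 → ∀ h ∈ S, ∀ k ∈ S, ∀ k' ∈ S, B x h (k + k') = B x h k + B x h k'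
  Bsmul₂ : ∀ x ∈ S, x ≠ 0 → ∀ (t : ℝ), ∀ h ∈ S, ∀ k ∈ S, B x h (t • k) = t * B x h k
  Bbd : ∀ x ∈ S, x ≠ 0 → ∀ h ∈ S, ∀ k ∈ S, |B x h k| * ‖x‖ ≤ C * ‖h‖ * ‖k‖
  sub : ∀ x ∈ S, x ≠ 0 → ∀ h ∈ S, D x h ≤ N (x + h) - N x
  tay : ∀ j : ℕ, ∀ x ∈ S, x ≠ 0 → ∀ h ∈ S, ∀ k ∈ S, ‖h‖ ≤ ‖x‖ / ((p j : ℝ) + 2) →
    |D (x + h) k - D x k - B x h k| * ‖x‖ ≤ ‖h‖ * ‖k‖ / ((j : ℝ) + 1)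
  cnt : ∀ j : ℕ, ∀ x ∈ S, x ≠ 0 → ∀ y ∈ S, ∀ h ∈ S, ∀ k ∈ S,
    ‖x - y‖ ≤ ‖x‖ / ((p j : ℝ) + 2) →
    |B x h k - B y h k| * ‖x‖ ≤ ‖h‖ * ‖k‖ / ((j : ℝ) + 1)

end Pool.Agent.H47.SS
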